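import Mathlib

/-!
Packings of three-vertex paths inside a finite vertex set of a graph: the packing number `lam`,
the set `D` of the vertices that are missed by some maximum packing, and boundary half-edges.
-/

namespace Pool.Agent.H32.Den

open Finset

variable {V : Type} [DecidableEq V] (G : SimpleGraph V)

/-- `Pk G k Y`: there are `k` pairwise disjoint three-vertex paths of `G` inside `Y`. -/
def Pk : ℕ → Finset V → Prop
  | 0, _ => True
  | k + 1, Y => ∃ a b c : V, ({a, b, c} : Finset V) ⊆ Y ∧ a ≠ c ∧ G.Adj a b ∧ G.Adj b c ∧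
      Pk k (Y \ {a, b, c})

variable {G}

lemma card_triple {a b c : V} (hac : a ≠ c) (hab : G.Adj a b) (hbc : G.Adj b c) :
    ({a, b, c} : Finset V).card = 3 := by
  rw [Finset.card_eq_three]
  exact ⟨a, b, c, hab.ne, hac, hbc.ne, rfl⟩

lemma Pk.mono {k : ℕ} {Y Y' : Finset V} (h : Pk G k Y) (hY : Y ⊆ Y') : Pk G k Y' := by
  induction k generalizing Y Y' with
  | zero => trivial
  | succ k ih =>
    obtain ⟨a, b, c, h1, h2, h3, h4, h5⟩ := h
    exact ⟨a, b, c, h1.trans hY, h2, h3, h4, ih h5 (sdiff_subset_sdiff hY le_rfl)⟩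

lemma Pk.card_le {k : ℕ} {Y : Finset V} (h : Pk G k Y) : 3 * k ≤ Y.card := by
  induction k generalizing Y with
  | zero => omega
  | succ k ih =>
    obtain ⟨a, b, c, h1, h2, h3, h4, h5⟩ := h
    have h6 := ih h5
    have h7 := card_sdiff_add_card_eq_card h1
    rw [card_triple h2 h3 h4] at h7
    omega

lemma Pk.pred {k : ℕ} {Y : Finset V} (h : Pk G (k + 1) Y) : Pk G k Y := by
  obtain ⟨a, b, c, h1, h2, h3, h4, h5⟩ := h
  exact h5.mono sdiff_subset

lemma Pk.anti {k l : ℕ} {Y : Finset V} (h : Pk G k Y) (hl : l ≤ k) : Pk G l Y := by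
  induction k generalizing l with
  | zero =>
    have : l = 0 := by omega
    subst this; trivial
  | succ k ih =>
    rcases Nat.lt_or_ge l (k + 1) with h1 | h1
    · exact ih h.pred (by omega)
    · have : l = k + 1 := by omega
      subst this; exact h

lemma Pk.union {k l : ℕ} {Y Z : Finset V} (h : Pk G k Y) (h' : Pk G l Z) (hd : Disjoint Y Z) :
    Pk G (k + l) (Y ∪ Z) := by
  induction k generalizing Y with
  | zero => rw [Nat.zero_add]; exact h'.mono subset_union_right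
  | succ k ih =>
    obtain ⟨a, b, c, h1, h2, h3, h4, h5⟩ := h
    have h6 := ih h5 (disjoint_of_subset_left sdiff_subset hd)
    have h7 : k + 1 + l = (k + l) + 1 := by omega
    rw [h7]
    refine ⟨a, b, c, h1.trans subset_union_left, h2, h3, h4, h6.mono ?_⟩
    intro x hx
    rw [mem_union, mem_sdiff] at hx
    rw [mem_sdiff, mem_union]
    rcases hx with hx | hx
    · exact ⟨Or.inl hx.1, hx.2⟩
    · exact ⟨Or.inr hx, fun hx' => (Finset.disjoint_left.1 hd (h1 hx')) hx⟩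

lemma Pk.exists_path {k : ℕ} {Y : Finset V} {v : V} (h : Pk G (k + 1) Y)
    (h' : ¬ Pk G (k + 1) (Y.erase v)) :
    ∃ a b c : V, ({a, b, c} : Finset V) ⊆ Y ∧ a ≠ c ∧ G.Adj a b ∧ G.Adj b c ∧
      v ∈ ({a, b, c} : Finset V) ∧ Pk G k (Y \ {a, b, c}) := by
  induction k generalizing Y with
  | zero =>
    obtain ⟨a, b, c, h1, h2, h3, h4, h5⟩ := h
    by_cases hv : v ∈ ({a, b, c} : Finset V)
    · exact ⟨a, b, c, h1, h2, h3, h4, hv, trivial⟩
    · exact absurd ⟨a, b, c, fun x hx => mem_erase.2 ⟨fun he => hv (he ▸ hx), h1 hx⟩, h2, h3, h4,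
        trivial⟩ h'
  | succ k ih =>
    obtain ⟨a, b, c, h1, h2, h3, h4, h5⟩ := h
    by_cases hv : v ∈ ({a, b, c} : Finset V)
    · exact ⟨a, b, c, h1, h2, h3, h4, hv, h5⟩
    · have hsub : ({a, b, c} : Finset V) ⊆ Y.erase v :=
        fun x hx => mem_erase.2 ⟨fun he => hv (he ▸ hx), h1 hx⟩
      have h6 : ¬ Pk G (k + 1) ((Y \ {a, b, c}).erase v) := by
        intro h6
        refine h' ⟨a, b, c, hsub, h2, h3, h4, h6.mono ?_⟩
        intro x hx
        rw [mem_erase, mem_sdiff] at hx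
        rw [mem_sdiff, mem_erase]
        exact ⟨⟨hx.1, hx.2.1⟩, hx.2.2⟩
      obtain ⟨a', b', c', g1, g2, g3, g4, g5, g6⟩ := ih h5 h6
      refine ⟨a', b', c', g1.trans sdiff_subset, g2, g3, g4, g5, a, b, c, ?_, h2, h3, h4,
        g6.mono ?_⟩
      · intro x hx
        exact mem_sdiff.2 ⟨h1 hx, fun hx' => (mem_sdiff.1 (g1 hx')).2 hx⟩
      · intro x hx
        simp only [mem_sdiff] at hx ⊢
        exact ⟨⟨hx.1.1, hx.2⟩, hx.1.2⟩

lemma Pk.split {k : ℕ} {Y Z : Finset V} (h : Pk G k Y) (hZ : Z ⊆ Y)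
    (hs : ∀ u ∈ Z, ∀ v ∈ Y \ Z, ¬ G.Adj u v) :
    ∃ k₁ k₂, k = k₁ + k₂ ∧ Pk G k₁ Z ∧ Pk G k₂ (Y \ Z) := by
  induction k generalizing Y Z with
  | zero => exact ⟨0, 0, rfl, trivial, trivial⟩
  | succ k ih =>
    obtain ⟨a, b, c, h1, h2, h3, h4, h5⟩ := h
    have ha : a ∈ Y := h1 (by simp)
    have hb : b ∈ Y := h1 (by simp)
    have hc : c ∈ Y := h1 (by simp)
    by_cases hbZ : b ∈ Z
    · have haZ : a ∈ Z := by
        by_contra hh
        exact hs b hbZ a (mem_sdiff.2 ⟨ha, hh⟩) h3.symm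
      have hcZ : c ∈ Z := by
        by_contra hh
        exact hs b hbZ c (mem_sdiff.2 ⟨hc, hh⟩) h4
      have hsub : ({a, b, c} : Finset V) ⊆ Z := by
        intro x hx
        simp only [mem_insert, mem_singleton] at hx
        rcases hx with rfl | rfl | rfl <;> assumption
      obtain ⟨k₁, k₂, e, p1, p2⟩ := ih (Y := Y \ {a, b, c}) (Z := Z \ {a, b, c}) h5
        (sdiff_subset_sdiff hZ le_rfl) (by
          intro u hu v hv
          simp only [mem_sdiff] at hu hv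
          exact hs u hu.1 v (mem_sdiff.2 ⟨hv.1.1, fun hvZ => hv.2 ⟨hvZ, hv.1.2⟩⟩))
      refine ⟨k₁ + 1, k₂, by omega, ⟨a, b, c, hsub, h2, h3, h4, p1⟩, p2.mono ?_⟩
      intro x hx
      simp only [mem_sdiff] at hx ⊢
      exact ⟨hx.1.1, fun hxZ => hx.2 ⟨hxZ, hx.1.2⟩⟩
    · have haZ : a ∉ Z := fun hh => hs a hh b (mem_sdiff.2 ⟨hb, hbZ⟩) h3
      have hcZ : c ∉ Z := fun hh => hs c hh b (mem_sdiff.2 ⟨hb, hbZ⟩) h4.symm
      have hnot : ∀ x ∈ ({a, b, c} : Finset V), x ∉ Z := by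
        intro x hx
        simp only [mem_insert, mem_singleton] at hx
        rcases hx with rfl | rfl | rfl <;> assumption
      obtain ⟨k₁, k₂, e, p1, p2⟩ := ih (Y := Y \ {a, b, c}) (Z := Z) h5
        (fun x hx => mem_sdiff.2 ⟨hZ hx, fun hx' => hnot x hx' hx⟩) (by
          intro u hu v hv
          simp only [mem_sdiff] at hv
          exact hs u hu v (mem_sdiff.2 ⟨hv.1.1, hv.2⟩))
      refine ⟨k₁, k₂ + 1, by omega, p1, a, b, c, ?_, h2, h3, h4, p2.mono ?_⟩
      · intro x hx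
        exact mem_sdiff.2 ⟨h1 hx, hnot x hx⟩
      · intro x hx
        simp only [mem_sdiff] at hx ⊢
        exact ⟨⟨hx.1.1, hx.2⟩, hx.1.2⟩

variable (G)

open Classical in
/-- The maximum number of disjoint three-vertex paths inside `Y`. -/
noncomputable def lam (Y : Finset V) : ℕ := Nat.findGreatest (fun k => Pk G k Y) Y.card

variable {G}

lemma le_lam {k : ℕ} {Y : Finset V} (h : Pk G k Y) : k ≤ lam G Y := by
  classical
  unfold lam
  exact Nat.le_findGreatest (by have := h.card_le; omega) h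

lemma Pk_lam (Y : Finset V) : Pk G (lam G Y) Y := by
  classical
  unfold lam
  exact Nat.findGreatest_spec (P := fun k => Pk G k Y) (Nat.zero_le _) trivial

lemma lam_mono {Y Y' : Finset V} (h : Y ⊆ Y') : lam G Y ≤ lam G Y' := le_lam ((Pk_lam Y).mono h)

lemma lam_card (Y : Finset V) : 3 * lam G Y ≤ Y.card := (Pk_lam Y).card_le

lemma lam_path {Y : Finset V} {a b c : V} (h : ({a, b, c} : Finset V) ⊆ Y) (hac : a ≠ c)
    (hab : G.Adj a b) (hbc : G.Adj b c) : lam G (Y \ {a, b, c}) + 1 ≤ lam G Y :=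
  le_lam (k := lam G (Y \ {a, b, c}) + 1) ⟨a, b, c, h, hac, hab, hbc, Pk_lam _⟩

lemma lam_path' {Y K : Finset V} {a b c : V} (ha : a ∈ Y) (hb : b ∈ Y) (hc : c ∈ Y) (hac : a ≠ c)
    (hab : G.Adj a b) (hbc : G.Adj b c) (hK : K ⊆ Y) (haK : a ∉ K) (hbK : b ∉ K) (hcK : c ∉ K) :
    lam G K + 1 ≤ lam G Y := by
  have h1 : ({a, b, c} : Finset V) ⊆ Y := by
    intro x hx
    simp only [mem_insert, mem_singleton] at hx
    rcases hx with rfl | rfl | rfl <;> assumption
  have h2 : K ⊆ Y \ {a, b, c} := by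
    intro x hx
    simp only [mem_sdiff, mem_insert, mem_singleton, not_or]
    exact ⟨hK hx, fun e => haK (e ▸ hx), fun e => hbK (e ▸ hx), fun e => hcK (e ▸ hx)⟩
  have h3 := lam_path h1 hac hab hbc
  have h4 := lam_mono (G := G) h2
  omega

lemma lam_union {Y Z : Finset V} (hd : Disjoint Y Z) : lam G Y + lam G Z ≤ lam G (Y ∪ Z) :=
  le_lam ((Pk_lam Y).union (Pk_lam Z) hd)

lemma lam_add_le {Y Z W : Finset V} (hY : Y ⊆ W) (hZ : Z ⊆ W) (hd : Disjoint Y Z) :
    lam G Y + lam G Z ≤ lam G W :=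
  (lam_union hd).trans (lam_mono (union_subset hY hZ))

lemma lam_split {Y Z : Finset V} (hZ : Z ⊆ Y) (hs : ∀ u ∈ Z, ∀ v ∈ Y \ Z, ¬ G.Adj u v) :
    lam G Y = lam G Z + lam G (Y \ Z) := by
  apply le_antisymm
  · obtain ⟨k₁, k₂, e, p1, p2⟩ := (Pk_lam (G := G) Y).split hZ hs
    have h1 := le_lam p1
    have h2 := le_lam p2
    omega
  · exact lam_add_le hZ sdiff_subset disjoint_sdiff

lemma exists_path {Y : Finset V} {v : V} (h : lam G (Y.erase v) < lam G Y) :
    ∃ a b c : V, ({a, b, c} : Finset V) ⊆ Y ∧ a ≠ c ∧ G.Adj a b ∧ G.Adj b c ∧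
      v ∈ ({a, b, c} : Finset V) ∧ lam G Y = lam G (Y \ {a, b, c}) + 1 := by
  obtain ⟨k, hk⟩ : ∃ k, lam G Y = k + 1 := ⟨lam G Y - 1, by omega⟩
  have h1 : Pk G (k + 1) Y := hk ▸ Pk_lam Y
  have h2 : ¬ Pk G (k + 1) (Y.erase v) := by
    intro h2
    have := le_lam h2
    omega
  obtain ⟨a, b, c, g1, g2, g3, g4, g5, g6⟩ := h1.exists_path h2
  refine ⟨a, b, c, g1, g2, g3, g4, g5, ?_⟩
  have h3 := le_lam g6
  have h4 := lam_path g1 g2 g3 g4
  omega

variable (G)

open Classical in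
/-- The vertices of `Y` that are missed by some maximum packing of `Y`. -/
noncomputable def D (Y : Finset V) : Finset V := Y.filter (fun v => lam G (Y.erase v) = lam G Y)

variable {G}

lemma mem_D {Y : Finset V} {v : V} : v ∈ D G Y ↔ v ∈ Y ∧ lam G (Y.erase v) = lam G Y := by
  classical
  unfold D
  rw [mem_filter]

lemma D_subset (Y : Finset V) : D G Y ⊆ Y := fun _ h => (mem_D.1 h).1

/-- A vertex outside a subset `K` of `Y` with as many paths is in `D Y`. -/
lemma mem_D_of_le {Y K : Finset V} {v : V} (hv : v ∈ Y) (hK : K ⊆ Y) (hvK : v ∉ K)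
    (h : lam G Y ≤ lam G K) : v ∈ D G Y := by
  refine mem_D.2 ⟨hv, le_antisymm (lam_mono (erase_subset _ _)) (h.trans (lam_mono ?_))⟩
  intro x hx
  exact mem_erase.2 ⟨fun e => hvK (e ▸ hx), hK hx⟩

lemma lam_lt_of_not_mem_D {Y : Finset V} {v : V} (hv : v ∈ Y) (h : v ∉ D G Y) :
    lam G (Y.erase v) < lam G Y := by
  rcases Nat.lt_or_ge (lam G (Y.erase v)) (lam G Y) with h1 | h1
  · exact h1
  · exact absurd (mem_D_of_le hv (erase_subset _ _) (notMem_erase _ _) h1) h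

lemma D_split {Y Z : Finset V} (hZ : Z ⊆ Y) (hs : ∀ u ∈ Z, ∀ v ∈ Y \ Z, ¬ G.Adj u v) {v : V}
    (hv : v ∈ Z) : v ∈ D G Y ↔ v ∈ D G Z := by
  have h1 := lam_split hZ hs
  have h2 : lam G (Y.erase v) = lam G (Z.erase v) + lam G (Y \ Z) := by
    have h3 := lam_split (G := G) (Y := Y.erase v) (Z := Z.erase v)
      (erase_subset_erase _ hZ) (by
        intro u hu w hw
        simp only [mem_sdiff, mem_erase, not_and] at hu hw
        exact hs u hu.2 w (mem_sdiff.2 ⟨hw.1.2, hw.2 hw.1.1⟩))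
    have h4 : Y.erase v \ Z.erase v = Y \ Z := by
      ext x
      simp only [mem_sdiff, mem_erase, not_and]
      constructor
      · rintro ⟨⟨h5, h6⟩, h7⟩
        exact ⟨h6, h7 h5⟩
      · rintro ⟨h5, h6⟩
        exact ⟨⟨fun e => h6 (e ▸ hv), h5⟩, fun _ => h6⟩
    rw [h4] at h3
    exact h3
  rw [mem_D, mem_D]
  constructor
  · rintro ⟨_, h⟩
    exact ⟨hv, by omega⟩
  · rintro ⟨_, h⟩
    exact ⟨hZ hv, by omega⟩

end Pool.Agent.H32.Den
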