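import Pool.Agent.H32.Den.CaseA

/-!
The situation that `Y` is cut by a single edge `z b` into `Z` (containing `z`) and a perfectly
packed rest.
-/

namespace Pool.Agent.H32.Den

open Finset

variable {V : Type} [DecidableEq V] [Fintype V] {G : SimpleGraph V}

/-- `z b` is the only edge between `Z` and `Y \ Z`. -/
structure Br (G : SimpleGraph V) (Y Z : Finset V) (z b : V) : Prop where
  sub : Z ⊆ Y
  hz : z ∈ Z
  hb : b ∈ Y
  hbZ : b ∉ Z
  adj : G.Adj z b
  only : ∀ u ∈ Z, ∀ v ∈ Y \ Z, G.Adj u v → u = z ∧ v = b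

lemma conn_singleton (z : V) : Conn G {z} := by
  intro C hC hne hCz
  exact absurd ((subset_singleton_iff.1 hC).resolve_left hne.ne_empty) hCz

lemma conn_pair {z z' : V} (h : G.Adj z z') : Conn G {z, z'} := by
  intro C hC hne hCz
  by_cases h1 : z ∈ C
  · by_cases h2 : z' ∈ C
    · exfalso
      apply hCz
      apply subset_antisymm hC
      intro w hw
      simp only [mem_insert, mem_singleton] at hw
      rcases hw with rfl | rfl <;> assumption
    · exact ⟨z, h1, z', mem_sdiff.2 ⟨by simp, h2⟩, h⟩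
  · obtain ⟨w, hw⟩ := hne
    have := hC hw
    simp only [mem_insert, mem_singleton] at this
    rcases this with rfl | rfl
    · exact absurd hw h1
    · exact ⟨w, hw, z, mem_sdiff.2 ⟨by simp, h1⟩, h.symm⟩

lemma Br.conn_left {Y Z : Finset V} {z b : V} (h : Br G Y Z z b) (hc : Conn G Y) : Conn G Z := by
  have key : ∀ C ⊆ Z, C.Nonempty → z ∉ C → ∃ u ∈ C, ∃ v ∈ Z \ C, G.Adj u v := by
    intro C hC hne hzC
    obtain ⟨u, hu, v, hv, huv⟩ := hc C (hC.trans h.sub) hne
      (fun e => hzC (by rw [e]; exact h.sub h.hz))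
    by_cases hvZ : v ∈ Z
    · exact ⟨u, hu, v, mem_sdiff.2 ⟨hvZ, (mem_sdiff.1 hv).2⟩, huv⟩
    · have := h.only u (hC hu) v (mem_sdiff.2 ⟨(mem_sdiff.1 hv).1, hvZ⟩) huv
      exact absurd (this.1 ▸ hu) hzC
  intro C hC hne hCZ
  by_cases hzC : z ∈ C
  · have h1 : (Z \ C).Nonempty := by
      rw [sdiff_nonempty]
      exact fun hh => hCZ (subset_antisymm hC hh)
    obtain ⟨u, hu, v, hv, huv⟩ := key (Z \ C) sdiff_subset h1 (fun hh => (mem_sdiff.1 hh).2 hzC)
    have hvC : v ∈ C := by
      by_contra hh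
      exact (mem_sdiff.1 hv).2 (mem_sdiff.2 ⟨(mem_sdiff.1 hv).1, hh⟩)
    exact ⟨v, hvC, u, hu, huv.symm⟩
  · exact key C hC hne hzC

lemma Br.conn_union {Y Z Z' : Finset V} {z b : V} (h : Br G Y Z z b) (hc : Conn G Y)
    (hZ' : Z' ⊆ Z) (hz : z ∈ Z') (hc' : Conn G Z') : Conn G ((Y \ Z) ∪ Z') := by
  intro C hC hne hCY
  by_cases h1 : (C ∩ Z').Nonempty
  · by_cases h2 : C ∩ Z' = Z'
    · -- `Z' ⊆ C`
      have h3 : Z' ⊆ C := inter_eq_right.1 h2
      have h4 : C ∪ Z ≠ Y := by
        intro e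
        apply hCY
        apply subset_antisymm hC
        intro w hw
        rcases mem_union.1 hw with hw | hw
        · have : w ∈ C ∪ Z := by rw [e]; exact (mem_sdiff.1 hw).1
          exact (mem_union.1 this).resolve_right (mem_sdiff.1 hw).2
        · exact h3 hw
      have h5 : C ∪ Z ⊆ Y := by
        intro w hw
        rcases mem_union.1 hw with hw | hw
        · rcases mem_union.1 (hC hw) with hw' | hw'
          · exact (mem_sdiff.1 hw').1
          · exact h.sub (hZ' hw')
        · exact h.sub hw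
      obtain ⟨u, hu, v, hv, huv⟩ := hc _ h5 (hne.mono subset_union_left) h4
      rw [mem_sdiff, mem_union, not_or] at hv
      have hvM : v ∈ (Y \ Z) ∪ Z' := mem_union_left _ (mem_sdiff.2 ⟨hv.1, hv.2.2⟩)
      rcases mem_union.1 hu with hu | hu
      · exact ⟨u, hu, v, mem_sdiff.2 ⟨hvM, hv.2.1⟩, huv⟩
      · have := h.only u hu v (mem_sdiff.2 ⟨hv.1, hv.2.2⟩) huv
        exact ⟨u, by rw [this.1]; exact h3 hz, v, mem_sdiff.2 ⟨hvM, hv.2.1⟩, huv⟩
    · obtain ⟨u, hu, v, hv, huv⟩ := hc' _ inter_subset_right h1 h2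
      rw [mem_sdiff, mem_inter, not_and] at hv
      exact ⟨u, (mem_inter.1 hu).1, v,
        mem_sdiff.2 ⟨mem_union_right _ hv.1, fun hh => hv.2 hh hv.1⟩, huv⟩
  · rw [not_nonempty_iff_eq_empty] at h1
    have h2 : C ⊆ Y \ Z := by
      intro w hw
      rcases mem_union.1 (hC hw) with hw' | hw'
      · exact hw'
      · have : w ∈ C ∩ Z' := mem_inter.2 ⟨hw, hw'⟩
        rw [h1] at this
        exact absurd this (notMem_empty _)
    obtain ⟨u, hu, v, hv, huv⟩ := hc C (h2.trans sdiff_subset) hne (by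
      rintro rfl
      exact (mem_sdiff.1 (h2 (h.sub h.hz))).2 h.hz)
    by_cases hvZ : v ∈ Z
    · have := h.only v hvZ u (h2 hu) huv.symm
      refine ⟨u, hu, v, mem_sdiff.2 ⟨mem_union_right _ (by rw [this.1]; exact hz), ?_⟩, huv⟩
      exact (mem_sdiff.1 hv).2
    · exact ⟨u, hu, v, mem_sdiff.2 ⟨mem_union_left _ (mem_sdiff.2 ⟨(mem_sdiff.1 hv).1, hvZ⟩),
        (mem_sdiff.1 hv).2⟩, huv⟩

/-- The gadget step: the part `Z` behind the bridge is replaced by a small piece `Z'`. -/
lemma Br.gadget {Y Z Z' : Finset V} {z b : V} {κ : ℕ} (h : Br G Y Z z b) (hc : Conn G Y)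
    (ih : ∀ C, C ⊂ Y → Ineq G C)
    (hlY : lam G Y = lam G Z + lam G (Y \ Z)) (hM : (Y \ Z).card = 3 * lam G (Y \ Z))
    (hbD : b ∉ D G Y) (hbo : 0 < out G Y b)
    (hZ' : Z' ⊆ Z) (hz : z ∈ Z') (hc' : Conn G Z') (hne : Z' ≠ Z) (hZ'2 : Z'.card ≤ 2)
    (hl : lam G (Z \ Z') = lam G Z) (hκ : ∑ w ∈ Z', out G ((Y \ Z) ∪ Z') w ≤ κ) :
    SD G Z + 2 * ((Y \ Z).card + Z'.card) + 3 ≤ SD G Y + 1 + κ + 7 * lam G (Y \ Z) := by
  set M := Y \ Z with hMdef
  set Y' := M ∪ Z' with hY'
  have hMY : M ⊆ Y := sdiff_subset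
  have hdisj : Disjoint M Z' := by
    rw [Finset.disjoint_left]
    intro w hw hw'
    exact (mem_sdiff.1 hw).2 (hZ' hw')
  have hY'Y : Y' ⊆ Y := union_subset hMY (hZ'.trans h.sub)
  have hY'ss : Y' ⊂ Y := by
    refine ⟨hY'Y, fun hh => hne (subset_antisymm hZ' ?_)⟩
    intro w hw
    rcases mem_union.1 (hh (h.sub hw)) with hw' | hw'
    · exact absurd hw (mem_sdiff.1 hw').2
    · exact hw'
  have hcard : Y'.card = M.card + Z'.card := card_union_of_disjoint hdisj
  have hlY' : lam G Y' = lam G M := by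
    apply le_antisymm
    · have := lam_card (G := G) Y'
      omega
    · exact lam_mono subset_union_left
  have hpos : 0 < Z'.card := card_pos.2 ⟨z, hz⟩
  have hbM : b ∈ M := mem_sdiff.2 ⟨h.hb, h.hbZ⟩
  -- the vertices of `D Y'` in `M` are in `D Y`
  have hDM : ∀ w ∈ M, w ∈ D G Y' → w ∈ D G Y := by
    intro w hw hwD
    have hwD' := mem_D.1 hwD
    have h1 : lam G (Z \ Z') + lam G (Y'.erase w) ≤ lam G (Y.erase w) := by
      apply lam_add_le
      · intro v hv
        rw [mem_sdiff] at hv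
        exact mem_erase.2 ⟨fun e => (mem_sdiff.1 hw).2 (e ▸ hv.1), h.sub hv.1⟩
      · exact erase_subset_erase _ hY'Y
      · rw [Finset.disjoint_left]
        intro v hv hv'
        rw [mem_sdiff] at hv
        rcases mem_union.1 (mem_erase.1 hv').2 with hv'' | hv''
        · exact (mem_sdiff.1 hv'').2 hv.1
        · exact hv.2 hv''
    refine mem_D_of_le (K := Y.erase w) (hMY hw) (erase_subset _ _) (notMem_erase _ _) ?_
    rw [hwD'.2, hlY', hl] at h1
    omega
  have hbD' : b ∉ D G Y' := fun hh => hbD (hDM b hbM hh)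
  have hcong : ∀ w ∈ M, out G Y' w = out G Y w := by
    intro w hw
    apply out_congr
    intro u huw
    constructor
    · exact fun hu => hY'Y hu
    · intro hu
      by_cases huZ : u ∈ Z
      · have := h.only u huZ w hw huw.symm
        exact mem_union_right _ (by rw [this.1]; exact hz)
      · exact mem_union_left _ (mem_sdiff.2 ⟨hu, huZ⟩)
  have hWt : Wt G Y' := wt_of_conn (h.conn_union hc hZ' hz hc') (mem_union_left _ hbM) hbD'
    (by rw [hcong b hbM]; exact hbo)
  have h1 := (ih Y' hY'ss).2 hWt (by omega)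
  -- `SD Y'`
  have h2 : SD G Y' ≤ ∑ w ∈ (D G Y').filter (fun w => w ∈ M), out G Y w + κ := by
    have h3 : SD G Y' = ∑ w ∈ (D G Y').filter (fun w => w ∈ M), out G Y' w +
        ∑ w ∈ (D G Y').filter (fun w => ¬ w ∈ M), out G Y' w := by
      unfold SD
      exact (sum_filter_add_sum_filter_not _ _ _).symm
    have h4 : ∑ w ∈ (D G Y').filter (fun w => w ∈ M), out G Y' w =
        ∑ w ∈ (D G Y').filter (fun w => w ∈ M), out G Y w :=
      sum_congr rfl (fun w hw => hcong w (mem_filter.1 hw).2)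
    have h5 : ∑ w ∈ (D G Y').filter (fun w => ¬ w ∈ M), out G Y' w ≤
        ∑ w ∈ Z', out G Y' w := by
      apply sum_le_sum_of_subset
      intro w hw
      rw [mem_filter] at hw
      exact (mem_union.1 (D_subset _ hw.1)).resolve_left hw.2
    omega
  -- `SD Y`
  have h3 : SD G Z ≤ ∑ w ∈ D G Z, out G Y w + 1 := by
    unfold SD
    apply sum_le_sum_add_one (z := z)
    · intro w hw hwz
      apply le_of_eq
      apply out_congr
      intro u huw
      constructor
      · exact fun hu => h.sub hu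
      · intro hu
        by_contra hh
        exact hwz (h.only w (D_subset _ hw) u (mem_sdiff.2 ⟨hu, hh⟩) huw).1
    · have := out_le (G := G) (A := Z) (B := Y) (R := {b}) (v := z) (by
        intro u huz hu hu'
        rw [mem_singleton]
        exact (h.only z h.hz u (mem_sdiff.2 ⟨hu, hu'⟩) huz).2)
      rwa [card_singleton] at this
  have h4 : ∑ w ∈ D G Z, out G Y w + ∑ w ∈ (D G Y').filter (fun w => w ∈ M), out G Y w ≤
      SD G Y := by
    have hd : Disjoint (D G Z) ((D G Y').filter (fun w => w ∈ M)) := by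
      rw [Finset.disjoint_left]
      intro w hw hw'
      exact (mem_sdiff.1 (mem_filter.1 hw').2).2 (D_subset _ hw)
    rw [← sum_union hd]
    unfold SD
    apply sum_le_sum_of_subset
    intro w hw
    rcases mem_union.1 hw with hw | hw
    · have hw' := mem_D.1 hw
      have h5 : lam G (Z.erase w) + lam G M ≤ lam G (Y.erase w) := by
        apply lam_add_le
        · exact erase_subset_erase _ h.sub
        · intro v hv
          exact mem_erase.2 ⟨fun e => (mem_sdiff.1 hv).2 (e ▸ hw'.1), hMY hv⟩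
        · rw [Finset.disjoint_left]
          intro v hv hv'
          exact (mem_sdiff.1 hv').2 (mem_erase.1 hv).2
      refine mem_D_of_le (K := Y.erase w) (h.sub hw'.1) (erase_subset _ _) (notMem_erase _ _) ?_
      rw [hw'.2] at h5
      omega
    · exact hDM w (mem_filter.1 hw).2 (mem_filter.1 hw).1
  rw [hlY', hcard] at h1
  omega

end Pool.Agent.H32.Den
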