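import Pool.Agent.H32.Den.Out

/-!
The case that all half-edges leaving `Y` leave at vertices of `D Y`.
-/

namespace Pool.Agent.H32.Den

open Finset

variable {V : Type} [DecidableEq V] [Fintype V] {G : SimpleGraph V}

lemma SD_eq_bd {Y : Finset V} (hD : ∀ v ∈ Y, v ∉ D G Y → out G Y v = 0) : SD G Y = bd G Y := by
  unfold SD bd
  exact sum_subset (D_subset Y) (fun v hv hv' => hD v hv hv')

/-- `SD` of a smaller set whose `D`-vertices see nothing of the removed part `R`, plus one removed
vertex `d` of `D` with an edge leaving `Y`. -/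
lemma SD_sdiff_add {Y R : Finset V} {d : V} (hR : d ∈ R) (hd : d ∈ D G Y)
    (ho : 0 < out G Y d) (hl : lam G (Y \ R) = lam G Y)
    (h : ∀ u ∈ D G (Y \ R), ∀ v ∈ R, ¬ G.Adj u v) : SD G (Y \ R) + 1 ≤ SD G Y := by
  have h1 : ∀ v ∈ D G (Y \ R), out G (Y \ R) v = out G Y v := by
    intro v hv
    apply out_congr
    intro u huv
    rw [mem_sdiff]
    exact ⟨fun hu => hu.1, fun hu => ⟨hu, fun hu' => h v hv u hu' huv⟩⟩
  have h2 : D G (Y \ R) ⊆ (D G Y).erase d := by
    intro v hv
    have hv' := mem_D.1 hv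
    refine mem_erase.2 ⟨fun e => (mem_sdiff.1 hv'.1).2 (e ▸ hR), ?_⟩
    refine mem_D_of_le (K := (Y \ R).erase v) (mem_sdiff.1 hv'.1).1
      ((erase_subset _ _).trans sdiff_subset) (notMem_erase _ _) ?_
    rw [hv'.2, hl]
  have h3 : SD G (Y \ R) = ∑ v ∈ D G (Y \ R), out G Y v := sum_congr rfl h1
  have h4 : out G Y d + ∑ x ∈ (D G Y).erase d, out G Y x = SD G Y :=
    Finset.add_sum_erase (D G Y) (fun x => out G Y x) hd
  have h5 : ∑ x ∈ D G (Y \ R), out G Y x ≤ ∑ x ∈ (D G Y).erase d, out G Y x :=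
    sum_le_sum_of_subset h2
  omega

/-- Removing a single vertex of `D` none of whose neighbours can be missed together with it. -/
lemma caseA_single {Y : Finset V} {d : V} (hdD : d ∈ D G Y) (hdo : 0 < out G Y d)
    (hT : ∀ d' ∈ Y, G.Adj d d' → lam G (Y \ {d, d'}) ≠ lam G Y)
    (ih : ∀ Z, Z ⊂ Y → Ineq G Z) (hconn : Conn G Y) (hlt : 3 * lam G Y + 1 < Y.card) :
    2 * Y.card + 2 ≤ SD G Y + 7 * lam G Y := by
  have hd : d ∈ Y := D_subset Y hdD
  have hsub : ({d} : Finset V) ⊆ Y := singleton_subset_iff.2 hd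
  have e1 : (Y \ {d}).card + 1 = Y.card := by
    have := card_sdiff_add_card_eq_card hsub
    rwa [card_singleton] at this
  have e2 : lam G (Y \ {d}) = lam G Y := by
    have := (mem_D.1 hdD).2
    rwa [erase_eq] at this
  have hno : ∀ u ∈ D G (Y \ {d}), ∀ v ∈ ({d} : Finset V), ¬ G.Adj u v := by
    intro u hu v hv huv
    rw [mem_singleton] at hv
    subst hv
    have hu' := mem_D.1 hu
    refine hT u (mem_sdiff.1 hu'.1).1 huv.symm ?_
    have : Y \ {v, u} = (Y \ {v}).erase u := by
      ext w
      simp only [mem_sdiff, mem_insert, mem_singleton, mem_erase, not_or]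
      tauto
    rw [this, hu'.2, e2]
  have h1 := SD_sdiff_add (mem_singleton_self d) hdD hdo e2 hno
  have h2 := (ih (Y \ {d}) (sdiff_ssubset hsub (singleton_nonempty d))).2
    (wt_sdiff hconn (singleton_nonempty d) hsub hno) (by omega)
  omega

lemma caseA {Y : Finset V} (hcub : ∀ v, (nb G v).card = 3) (hcut : 3 ≤ bd G Y)
    (ih : ∀ Z, Z ⊂ Y → Ineq G Z) (hconn : Conn G Y)
    (hD : ∀ v ∈ Y, v ∉ D G Y → out G Y v = 0) (hlt : 3 * lam G Y < Y.card) :
    2 * Y.card ≤ SD G Y + 7 * lam G Y := by
  have hSD := SD_eq_bd hD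
  rcases Nat.lt_or_ge Y.card (3 * lam G Y + 2) with h1 | h1
  · omega
  rcases Nat.lt_or_ge Y.card (3 * lam G Y + 3) with h2 | h2
  · -- deficiency two
    rcases Nat.eq_zero_or_pos (lam G Y) with h3 | h3
    · have h4 : Y.card = 2 := by omega
      obtain ⟨u, v, huv, rfl⟩ := Finset.card_eq_two.1 h4
      have h5 : 3 ≤ out G {u, v} u + ({v} : Finset V).card := le_out_add (hcub u) (by
        intro w hw huw
        simp only [mem_insert, mem_singleton] at hw
        rcases hw with rfl | rfl
        · exact absurd rfl huw.ne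
        · exact mem_singleton_self _)
      have h6 : 3 ≤ out G {u, v} v + ({u} : Finset V).card := le_out_add (hcub v) (by
        intro w hw huw
        simp only [mem_insert, mem_singleton] at hw
        rcases hw with rfl | rfl
        · exact mem_singleton_self _
        · exact absurd rfl huw.ne)
      have h7 : bd G {u, v} = out G {u, v} u + out G {u, v} v := by
        unfold bd
        rw [sum_pair huv]
      rw [card_singleton] at h5 h6
      omega
    · omega
  -- deficiency at least three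
  obtain ⟨d, hd, hdo⟩ : ∃ d ∈ Y, 0 < out G Y d := by
    by_contra hh
    push Not at hh
    have : bd G Y = 0 := sum_eq_zero (fun v hv => Nat.le_zero.1 (hh v hv))
    omega
  have hdD : d ∈ D G Y := by
    by_contra hh
    have := hD d hd hh
    omega
  by_cases hT : ∃ d' ∈ Y, G.Adj d d' ∧ lam G (Y \ {d, d'}) = lam G Y
  · obtain ⟨d', hd', hadj, hl⟩ := hT
    have hsub : ({d, d'} : Finset V) ⊆ Y := by
      intro w hw
      simp only [mem_insert, mem_singleton] at hw
      rcases hw with rfl | rfl <;> assumption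
    have e1 : (Y \ {d, d'}).card + 2 = Y.card := by
      have := card_sdiff_add_card_eq_card hsub
      rwa [card_pair hadj.ne] at this
    have hno : ∀ u ∈ D G (Y \ {d, d'}), ∀ v ∈ ({d, d'} : Finset V), ¬ G.Adj u v := by
      intro u hu v hv huv
      have hu' := mem_D.1 hu
      have huY := mem_sdiff.1 hu'.1
      have hud : u ≠ d := fun e => huY.2 (by simp [e])
      have hud' : u ≠ d' := fun e => huY.2 (by simp [e])
      simp only [mem_insert, mem_singleton] at hv
      have key : lam G ((Y \ {d, d'}).erase u) + 1 ≤ lam G Y := by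
        rcases hv with rfl | rfl
        · exact lam_path' (K := (Y \ {v, d'}).erase u) huY.1 hd hd' hud' huv hadj
            ((erase_subset _ _).trans sdiff_subset) (notMem_erase _ _)
            (fun h => (mem_sdiff.1 (mem_erase.1 h).2).2 (by simp))
            (fun h => (mem_sdiff.1 (mem_erase.1 h).2).2 (by simp))
        · exact lam_path' (K := (Y \ {d, v}).erase u) huY.1 hd' hd hud huv hadj.symm
            ((erase_subset _ _).trans sdiff_subset) (notMem_erase _ _)
            (fun h => (mem_sdiff.1 (mem_erase.1 h).2).2 (by simp))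
            (fun h => (mem_sdiff.1 (mem_erase.1 h).2).2 (by simp))
      rw [hu'.2, hl] at key
      omega
    have hne : ({d, d'} : Finset V).Nonempty := ⟨d, by simp⟩
    have k1 := SD_sdiff_add (R := {d, d'}) (d := d) (by simp) hdD hdo hl hno
    have k2 := (ih (Y \ {d, d'}) (sdiff_ssubset hsub hne)).2
      (wt_sdiff hconn hne hsub hno) (by omega)
    omega
  · push Not at hT
    have := caseA_single hdD hdo (fun d' h1 h2 => hT d' h1 h2) ih hconn (by omega)
    omega

/-- The refinement used at a bridge. -/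
lemma caseA_strong {Y : Finset V} {d : V} (hcut : 3 ≤ bd G Y)
    (ih : ∀ Z, Z ⊂ Y → Ineq G Z) (hconn : Conn G Y)
    (hD : ∀ v ∈ Y, v ∉ D G Y → out G Y v = 0) (hlt : 3 * lam G Y < Y.card)
    (hdD : d ∈ D G Y) (hdo : 0 < out G Y d)
    (hT : ∀ d' ∈ Y, G.Adj d d' → lam G (Y \ {d, d'}) ≠ lam G Y) (h2 : 2 ≤ Y.card) :
    2 * Y.card + 1 ≤ SD G Y + 7 * lam G Y := by
  have hSD := SD_eq_bd hD
  rcases Nat.lt_or_ge Y.card (3 * lam G Y + 2) with h1 | h1
  · omega
  · have := caseA_single hdD hdo hT ih hconn (by omega)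
    omega

end Pool.Agent.H32.Den
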