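import Pool.Agent.H32.Den.Small

/-!
The case of a vertex with an edge leaving `Y` that is covered by every maximum packing of `Y`.
-/

namespace Pool.Agent.H32.Den

open Finset

variable {V : Type} [DecidableEq V] [Fintype V] {G : SimpleGraph V}

/-- The bridge case. -/
lemma caseW_bridge {Y Z : Finset V} {z b a x : V} (hcub : ∀ v, (nb G v).card = 3)
    (hcut : ∀ C, C ⊆ Y → C.Nonempty → 3 ≤ bd G C) (h : Br G Y Z z b)
    (hconn : Conn G Y) (ih : ∀ C, C ⊂ Y → Ineq G C)
    (hM : (Y \ Z).card = 3 * lam G (Y \ Z)) (hlY : lam G Y = lam G Z + lam G (Y \ Z))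
    (hbD : b ∉ D G Y) (hbo : 0 < out G Y b)
    (ha : a ∈ Y \ Z) (hx : x ∈ Y \ Z) (hba : G.Adj b a) (hax : G.Adj a x) (hbx : b ≠ x)
    (hP : lam G (Y \ Z) = lam G ((Y \ Z) \ {b, a, x}) + 1)
    (hzD : z ∈ D G Z) (hA : ∀ v ∈ Z, v ∉ D G Z → out G Z v = 0) (hlt : 3 * lam G Z < Z.card) :
    2 * Y.card + 3 ≤ SD G Y + 7 * lam G Y := by
  have haZ : ∀ v ∈ Z, a ≠ v := fun v hv e => (mem_sdiff.1 ha).2 (e ▸ hv)
  have hxZ : ∀ v ∈ Z, x ≠ v := fun v hv e => (mem_sdiff.1 hx).2 (e ▸ hv)
  have hZss : Z ⊂ Y := ⟨h.sub, fun hh => h.hbZ (hh h.hb)⟩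
  have hconnZ := h.conn_left hconn
  have hYcard : (Y \ Z).card + Z.card = Y.card := card_sdiff_add_card_eq_card h.sub
  have ihZ : ∀ C, C ⊂ Z → Ineq G C := fun C hC => ih C (hC.trans hZss)
  have hbM : b ∈ Y \ Z := mem_sdiff.2 ⟨h.hb, h.hbZ⟩
  have hzo : 0 < out G Z z := out_pos h.adj h.hbZ
  by_cases hZ1 : Z.card = 1
  · obtain ⟨w, rfl⟩ := card_eq_one.1 hZ1
    have hzw : z = w := mem_singleton.1 h.hz
    subst hzw
    have hl0 : lam G {z} = 0 := by
      have := lam_card (G := G) {z}
      rw [card_singleton] at this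
      omega
    exact small_one hcub hcut h ih hM (by omega) hbo (mem_sdiff.1 ha).1 (mem_sdiff.1 hx).1
      (haZ z h.hz) (hxZ z h.hz) hba hax hbx hP
  have hZ0 : 0 < Z.card := card_pos.2 ⟨z, h.hz⟩
  by_cases hT : ∃ z' ∈ Z, G.Adj z z' ∧ lam G (Z \ {z, z'}) = lam G Z
  · obtain ⟨z', hz', hadj, hl⟩ := hT
    have hsub : ({z, z'} : Finset V) ⊆ Z := by
      intro w hw
      simp only [mem_insert, mem_singleton] at hw
      rcases hw with rfl | rfl
      · exact h.hz
      · exact hz'
    have hc2 : ({z, z'} : Finset V).card = 2 := card_pair hadj.ne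
    by_cases hZ2 : ({z, z'} : Finset V) = Z
    · subst hZ2
      have hl0 : lam G {z, z'} = 0 := by
        have := lam_card (G := G) {z, z'}
        omega
      exact small_two hcub h hadj ih hM (by omega) hbo (mem_sdiff.1 ha).1 (haZ z h.hz)
        (haZ z' hz') hba hP
    · have hκ : ∑ w ∈ ({z, z'} : Finset V), out G ((Y \ Z) ∪ {z, z'}) w ≤ 3 := by
        rw [sum_pair hadj.ne]
        have h1 := out_add (G := G) (Y := (Y \ Z) ∪ {z, z'}) (R := {z', b}) (hcub z) (by
          intro w hw
          simp only [mem_insert, mem_singleton] at hw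
          rcases hw with rfl | rfl
          · exact mem_union_right _ (by simp)
          · exact mem_union_left _ hbM) (by
          intro w hw
          simp only [mem_insert, mem_singleton] at hw
          rcases hw with rfl | rfl
          · exact hadj
          · exact h.adj)
        have h2 : ({z', b} : Finset V).card = 2 := card_pair (fun e => h.hbZ (e ▸ hz'))
        have h3 := out_add (G := G) (Y := (Y \ Z) ∪ {z, z'}) (R := {z}) (hcub z') (by
          intro w hw
          rw [mem_singleton] at hw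
          subst hw
          exact mem_union_right _ (by simp)) (by
          intro w hw
          rw [mem_singleton] at hw
          subst hw
          exact hadj.symm)
        rw [card_singleton] at h3
        omega
      have k1 := h.gadget hconn ih hlY hM hbD hbo hsub (by simp) (conn_pair hadj) hZ2 hc2.le hl hκ
      have k2 := (ih Z hZss).1
      omega
  · push Not at hT
    have hsub : ({z} : Finset V) ⊆ Z := singleton_subset_iff.2 h.hz
    have hne : ({z} : Finset V) ≠ Z := by
      intro e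
      rw [← e, card_singleton] at hZ1
      exact hZ1 rfl
    have hκ : ∑ w ∈ ({z} : Finset V), out G ((Y \ Z) ∪ {z}) w ≤ 2 := by
      rw [sum_singleton]
      have h3 := out_add (G := G) (Y := (Y \ Z) ∪ {z}) (R := {b}) (hcub z) (by
        intro w hw
        rw [mem_singleton] at hw
        subst hw
        exact mem_union_left _ hbM) (by
        intro w hw
        rw [mem_singleton] at hw
        subst hw
        exact h.adj)
      rw [card_singleton] at h3
      omega
    have hl : lam G (Z \ {z}) = lam G Z := by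
      have := (mem_D.1 hzD).2
      rwa [erase_eq] at this
    have k1 := h.gadget hconn ih hlY hM hbD hbo hsub (mem_singleton_self z) (conn_singleton z) hne
      (by rw [card_singleton]; omega) hl hκ
    have k2 := caseA_strong (hcut Z h.sub ⟨z, h.hz⟩) ihZ hconnZ hA hlt hzD hzo
      (fun d' h1 h2 => hT d' h1 h2) (by omega)
    rw [card_singleton] at k1
    omega

/-- No edge between the path and the `D`-vertices of the rest. -/
lemma caseW_free {Y : Finset V} {p q r : V} (hsub : ({p, q, r} : Finset V) ⊆ Y) (hpr : p ≠ r)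
    (hpq : G.Adj p q) (hqr : G.Adj q r) (hP : lam G Y = lam G (Y \ {p, q, r}) + 1)
    (hconn : Conn G Y) (ih : ∀ C, C ⊂ Y → Ineq G C) (hlt : 3 * lam G Y < Y.card)
    (hno : ∀ u ∈ D G (Y \ {p, q, r}), ∀ v ∈ ({p, q, r} : Finset V), ¬ G.Adj u v) :
    2 * Y.card + 3 ≤ SD G Y + 7 * lam G Y := by
  have hc3 := card_triple hpr hpq hqr
  have hcard := card_sdiff_add_card_eq_card hsub
  rw [hc3] at hcard
  have hne : ({p, q, r} : Finset V).Nonempty := ⟨p, by simp⟩
  have h1 := (ih (Y \ {p, q, r}) (sdiff_ssubset hsub hne)).2 (wt_sdiff hconn hne hsub hno)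
    (by omega)
  have h2 : SD G (Y \ {p, q, r}) ≤ SD G Y := by
    have h3 : SD G (Y \ {p, q, r}) = ∑ v ∈ D G (Y \ {p, q, r}), out G Y v := by
      unfold SD
      apply sum_congr rfl
      intro v hv
      apply out_congr
      intro u hvu
      exact ⟨fun hu => (mem_sdiff.1 hu).1, fun hu => mem_sdiff.2 ⟨hu, fun hh => hno v hv u hh hvu⟩⟩
    rw [h3]
    unfold SD
    apply sum_le_sum_of_subset
    intro v hv
    have hv' := mem_D.1 hv
    have h4 : lam G ((Y \ {p, q, r}).erase v) + 1 ≤ lam G (Y.erase v) := by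
      have hmem : ∀ w ∈ ({p, q, r} : Finset V), w ∈ Y.erase v := by
        intro w hw
        refine mem_erase.2 ⟨?_, hsub hw⟩
        rintro rfl
        exact (mem_sdiff.1 hv'.1).2 hw
      refine lam_path' (hmem p (by simp)) (hmem q (by simp)) (hmem r (by simp)) hpr hpq hqr
        (erase_subset_erase _ sdiff_subset) ?_ ?_ ?_
      · exact fun hh => (mem_sdiff.1 (mem_erase.1 hh).2).2 (by simp)
      · exact fun hh => (mem_sdiff.1 (mem_erase.1 hh).2).2 (by simp)
      · exact fun hh => (mem_sdiff.1 (mem_erase.1 hh).2).2 (by simp)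
    refine mem_D_of_le (K := Y.erase v) (mem_sdiff.1 hv'.1).1 (erase_subset _ _)
      (notMem_erase _ _) ?_
    rw [hv'.2] at h4
    omega
  omega

/-- `b` is an end of the path. -/
lemma caseW_end {Y : Finset V} {b a x : V} (hcub : ∀ v, (nb G v).card = 3)
    (hcut : ∀ C, C ⊆ Y → C.Nonempty → 3 ≤ bd G C)
    (hconn : Conn G Y) (ih : ∀ C, C ⊂ Y → Ineq G C)
    (hsub : ({b, a, x} : Finset V) ⊆ Y) (hbx : b ≠ x)
    (hba : G.Adj b a) (hax : G.Adj a x) (hP : lam G Y = lam G (Y \ {b, a, x}) + 1)
    (hbD : b ∉ D G Y) (hbo : 0 < out G Y b) (hlt : 3 * lam G Y < Y.card) :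
    2 * Y.card + 3 ≤ SD G Y + 7 * lam G Y := by
  set K := Y \ {b, a, x} with hK
  have hb : b ∈ Y := hsub (by simp)
  have ha : a ∈ Y := hsub (by simp)
  have hx : x ∈ Y := hsub (by simp)
  have hKY : K ⊆ Y := sdiff_subset
  have hc3 := card_triple hbx hba hax
  have hcard := card_sdiff_add_card_eq_card hsub
  rw [hc3, ← hK] at hcard
  have hKne : ∀ w ∈ K, w ≠ b ∧ w ≠ a ∧ w ≠ x := by
    intro w hw
    have := (mem_sdiff.1 hw).2
    simpa only [mem_insert, mem_singleton, not_or] using this
  have hmemP : ∀ w ∈ Y, w ∉ K → w = b ∨ w = a ∨ w = x := by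
    intro w hw hwK
    by_contra hh
    apply hwK
    rw [hK, mem_sdiff]
    refine ⟨hw, ?_⟩
    simpa only [mem_insert, mem_singleton] using hh
  -- D-vertices of `K` do not see `a` or `x`
  have hDa : ∀ w ∈ D G K, ¬ G.Adj w a := by
    intro w hw hwa
    have hw' := mem_D.1 hw
    obtain ⟨n1, n2, n3⟩ := hKne w hw'.1
    have h1 : lam G (K.erase w) + 1 ≤ lam G (Y.erase b) := by
      refine lam_path' (a := w) (b := a) (c := x) (mem_erase.2 ⟨n1, hKY hw'.1⟩)
        (mem_erase.2 ⟨hba.ne.symm, ha⟩) (mem_erase.2 ⟨hbx.symm, hx⟩) n3 hwa hax ?_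
        (notMem_erase _ _) (fun hh => (hKne a (mem_erase.1 hh).2).2.1 rfl)
        (fun hh => (hKne x (mem_erase.1 hh).2).2.2 rfl)
      intro v hv
      exact mem_erase.2 ⟨(hKne v (mem_erase.1 hv).2).1, hKY (mem_erase.1 hv).2⟩
    apply hbD
    refine mem_D_of_le (K := Y.erase b) hb (erase_subset _ _) (notMem_erase _ _) ?_
    rw [hw'.2] at h1
    omega
  have hDx : ∀ w ∈ D G K, ¬ G.Adj w x := by
    intro w hw hwx
    have hw' := mem_D.1 hw
    obtain ⟨n1, n2, n3⟩ := hKne w hw'.1
    have h1 : lam G (K.erase w) + 1 ≤ lam G (Y.erase b) := by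
      refine lam_path' (a := w) (b := x) (c := a) (mem_erase.2 ⟨n1, hKY hw'.1⟩)
        (mem_erase.2 ⟨hbx.symm, hx⟩) (mem_erase.2 ⟨hba.ne.symm, ha⟩) n2 hwx hax.symm ?_
        (notMem_erase _ _) (fun hh => (hKne x (mem_erase.1 hh).2).2.2 rfl)
        (fun hh => (hKne a (mem_erase.1 hh).2).2.1 rfl)
      intro v hv
      exact mem_erase.2 ⟨(hKne v (mem_erase.1 hv).2).1, hKY (mem_erase.1 hv).2⟩
    apply hbD
    refine mem_D_of_le (K := Y.erase b) hb (erase_subset _ _) (notMem_erase _ _) ?_
    rw [hw'.2] at h1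
    omega
  by_cases hex : ∃ z ∈ D G K, G.Adj z b
  swap
  · push Not at hex
    refine caseW_free hsub hbx hba hax hP hconn ih hlt ?_
    intro u hu v hv huv
    simp only [mem_insert, mem_singleton] at hv
    rcases hv with rfl | rfl | rfl
    · exact hex u hu huv
    · exact hDa u hu huv
    · exact hDx u hu huv
  obtain ⟨z, hzD, hzb⟩ := hex
  have hzK := D_subset _ hzD
  have hzY := hKY hzK
  have hnb : ∀ u ∈ Y, G.Adj b u → u = a ∨ u = z := by
    intro u hu hbu
    exact eq_of_out_pos (hcub b) hbo ha hzY hu hba hzb.symm hbu (Ne.symm (hKne z hzK).2.1)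
  -- `D K ⊆ D Y`
  have hDKY : ∀ w ∈ D G K, w ∈ D G Y := by
    intro v hv
    have hv' := mem_D.1 hv
    obtain ⟨n1, n2, n3⟩ := hKne v hv'.1
    have h4 : lam G (K.erase v) + 1 ≤ lam G (Y.erase v) := by
      refine lam_path' (a := b) (b := a) (c := x) (mem_erase.2 ⟨n1.symm, hb⟩)
        (mem_erase.2 ⟨n2.symm, ha⟩) (mem_erase.2 ⟨n3.symm, hx⟩) hbx hba hax
        (erase_subset_erase _ hKY) (fun hh => (hKne b (mem_erase.1 hh).2).1 rfl)
        (fun hh => (hKne a (mem_erase.1 hh).2).2.1 rfl)
        (fun hh => (hKne x (mem_erase.1 hh).2).2.2 rfl)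
    refine mem_D_of_le (K := Y.erase v) (hKY hv'.1) (erase_subset _ _) (notMem_erase _ _) ?_
    rw [hv'.2] at h4
    omega
  have hSD : SD G K ≤ SD G Y + 1 := by
    have h1 : SD G K ≤ ∑ w ∈ D G K, out G Y w + 1 := by
      unfold SD
      have key : ∀ w ∈ D G K, ∀ u, G.Adj w u → u ∈ Y → u ∉ K → w = z ∧ u = b := by
        intro w hw u hwu hu huK
        rcases hmemP u hu huK with rfl | rfl | rfl
        · rcases hnb w (hKY (D_subset _ hw)) hwu.symm with e | e
          · exact absurd e (hKne w (D_subset _ hw)).2.1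
          · exact ⟨e, rfl⟩
        · exact absurd hwu (hDa w hw)
        · exact absurd hwu (hDx w hw)
      apply sum_le_sum_add_one (z := z)
      · intro w hw hwz
        apply le_of_eq
        apply out_congr
        intro u hwu
        constructor
        · exact fun hu => hKY hu
        · intro hu
          by_contra hh
          exact hwz (key w hw u hwu hu hh).1
      · have := out_le (G := G) (A := K) (B := Y) (R := {b}) (v := z) (by
          intro u hzu hu huK
          rw [mem_singleton]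
          exact (key z hzD u hzu hu huK).2)
        rwa [card_singleton] at this
    have h2 : ∑ w ∈ D G K, out G Y w ≤ SD G Y := by
      unfold SD
      exact sum_le_sum_of_subset hDKY
    omega
  have hKss : K ⊂ Y := sdiff_ssubset hsub ⟨b, by simp⟩
  by_cases hW : Wt G K
  · have := (ih K hKss).2 hW (by omega)
    omega
  unfold Wt at hW
  push Not at hW
  obtain ⟨Z, hZK, hZne, hZs, hZlt, hZall⟩ := hW
  have hZY : Z ⊆ Y := hZK.trans hKY
  have hbK : b ∉ K := fun hh => (hKne b hh).1 rfl
  have haK : a ∉ K := fun hh => (hKne a hh).2.1 rfl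
  have hxK : x ∉ K := fun hh => (hKne x hh).2.2 rfl
  have hbZ : b ∉ Z := fun hh => hbK (hZK hh)
  have honly : ∀ u ∈ Z, ∀ v ∈ Y \ Z, G.Adj u v → u = z ∧ v = b := by
    intro u hu v hv huv
    rw [mem_sdiff] at hv
    have hvK : v ∉ K := fun hh => hZs u hu v (mem_sdiff.2 ⟨hh, hv.2⟩) huv
    have hmore : 0 < out G Z u := out_pos huv hv.2
    have huD : u ∈ D G Z := by
      by_contra hh
      have := hZall u hu hh
      omega
    have huD' : u ∈ D G K := (D_split hZK hZs hu).2 huD
    rcases hmemP v hv.1 hvK with rfl | rfl | rfl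
    · rcases hnb u (hZY hu) huv.symm with e | e
      · exact absurd e (hKne u (hZK hu)).2.1
      · exact ⟨e, rfl⟩
    · exact absurd huv (hDa u huD')
    · exact absurd huv (hDx u huD')
  have hzZ : z ∈ Z := by
    obtain ⟨u, hu, v, hv, huv⟩ := hconn Z hZY hZne (fun e => hbZ (e ▸ hb))
    rw [← (honly u hu v hv huv).1]
    exact hu
  have hBr : Br G Y Z z b := ⟨hZY, hzZ, hb, hbZ, hzb, honly⟩
  have hzDZ : z ∈ D G Z := (D_split hZK hZs hzZ).1 hzD
  have e1 := lam_split hZK hZs
  have hM1 : lam G (K \ Z) + 1 ≤ lam G (Y \ Z) := by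
    refine lam_path' (a := b) (b := a) (c := x) (mem_sdiff.2 ⟨hb, hbZ⟩)
      (mem_sdiff.2 ⟨ha, fun hh => haK (hZK hh)⟩) (mem_sdiff.2 ⟨hx, fun hh => hxK (hZK hh)⟩)
      hbx hba hax (sdiff_subset_sdiff hKY le_rfl)
      (fun hh => hbK (mem_sdiff.1 hh).1) (fun hh => haK (mem_sdiff.1 hh).1)
      (fun hh => hxK (mem_sdiff.1 hh).1)
  have hM2 : lam G Z + lam G (Y \ Z) ≤ lam G Y := lam_add_le hZY sdiff_subset disjoint_sdiff
  have hcKZ := card_sdiff_add_card_eq_card hZK
  have hcYZ := card_sdiff_add_card_eq_card hZY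
  by_cases hK2 : 3 * lam G (K \ Z) < (K \ Z).card
  · -- another component with positive deficiency
    have hW2 : Wt G (K \ Z) := by
      intro C hC hne hs hlt'
      obtain ⟨u, hu, v, hv, huv⟩ := hconn C (hC.trans (sdiff_subset.trans hKY)) hne
        (fun e => hbK (sdiff_subset (hC (e ▸ hb))))
      rw [mem_sdiff] at hv
      have hus := mem_sdiff.1 (hC hu)
      refine ⟨u, hu, fun huD => ?_, out_pos huv hv.2⟩
      have huD' : u ∈ D G (K \ Z) := (D_split hC hs hu).2 huD
      have hs' : ∀ u ∈ K \ Z, ∀ v ∈ K \ (K \ Z), ¬ G.Adj u v := by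
        intro u hu v hv huv
        have : v ∈ Z := by
          by_contra hh
          exact (mem_sdiff.1 hv).2 (mem_sdiff.2 ⟨(mem_sdiff.1 hv).1, hh⟩)
        exact hZs v this u hu huv.symm
      have huDK : u ∈ D G K := (D_split sdiff_subset hs' (hC hu)).2 huD'
      by_cases hvK : v ∈ K
      · by_cases hvZ : v ∈ Z
        · exact hZs v hvZ u (hC hu) huv.symm
        · exact hs u hu v (mem_sdiff.2 ⟨mem_sdiff.2 ⟨hvK, hvZ⟩, hv.2⟩) huv
      · rcases hmemP v hv.1 hvK with rfl | rfl | rfl
        · rcases hnb u (hKY hus.1) huv.symm with e | e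
          · exact (hKne u hus.1).2.1 e
          · exact hus.2 (e ▸ hzZ)
        · exact hDa u huDK huv
        · exact hDx u huDK huv
    have k1 := (ih (K \ Z) ((sdiff_subset.trans_ssubset hKss))).2 hW2 hK2
    have k2 := (ih Z (hZK.trans_ssubset hKss)).1
    have k3 := SD_split hZK hZs
    omega
  · have hlc := lam_card (G := G) (K \ Z)
    have e2 : (Y \ Z) \ {b, a, x} = K \ Z := by
      rw [hK]
      ext w
      simp only [mem_sdiff]
      tauto
    refine caseW_bridge hcub hcut hBr hconn ih (by omega) (by omega) hbD hbo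
      (mem_sdiff.2 ⟨ha, fun hh => haK (hZK hh)⟩) (mem_sdiff.2 ⟨hx, fun hh => hxK (hZK hh)⟩)
      hba hax hbx (by rw [e2]; omega) hzDZ (fun v hv hv' => ?_) hZlt
    have := hZall v hv hv'
    omega

lemma caseW {Y : Finset V} {b : V} (hcub : ∀ v, (nb G v).card = 3)
    (hcut : ∀ C, C ⊆ Y → C.Nonempty → 3 ≤ bd G C)
    (hconn : Conn G Y) (ih : ∀ C, C ⊂ Y → Ineq G C) (hb : b ∈ Y)
    (hbD : b ∉ D G Y) (hbo : 0 < out G Y b) (hlt : 3 * lam G Y < Y.card) :
    2 * Y.card + 3 ≤ SD G Y + 7 * lam G Y := by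
  obtain ⟨p, q, r, hsub, hpr, hpq, hqr, hbm, hP⟩ := exists_path (lam_lt_of_not_mem_D hb hbD)
  have hp : p ∈ Y := hsub (by simp)
  have hq : q ∈ Y := hsub (by simp)
  have hr : r ∈ Y := hsub (by simp)
  simp only [mem_insert, mem_singleton] at hbm
  rcases hbm with rfl | rfl | rfl
  · exact caseW_end hcub hcut hconn ih hsub hpr hpq hqr hP hbD hbo hlt
  · -- `b` in the middle
    set K := Y \ {p, b, r} with hK
    have hKne : ∀ w ∈ K, w ≠ p ∧ w ≠ b ∧ w ≠ r := by
      intro w hw
      have := (mem_sdiff.1 hw).2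
      simpa only [mem_insert, mem_singleton, not_or] using this
    -- switching to a path with `b` at the end
    have key : ∀ s t z, s ∈ Y → t ∈ Y → G.Adj b s → z ∈ D G K → G.Adj z s → z ≠ s →
        (∀ w ∈ K, w ≠ s) →
        2 * Y.card + 3 ≤ SD G Y + 7 * lam G Y := by
      intro s t z hs ht hbs hz hzs hne hKs
      have hz' := mem_D.1 hz
      obtain ⟨n1, n2, n3⟩ := hKne z hz'.1
      have hsub' : ({b, s, z} : Finset V) ⊆ Y := by
        intro w hw
        simp only [mem_insert, mem_singleton] at hw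
        rcases hw with rfl | rfl | rfl
        · exact hb
        · exact hs
        · exact sdiff_subset hz'.1
      have h1 := lam_path hsub' n2.symm hbs hzs.symm
      have h2 : lam G (K.erase z) ≤ lam G (Y \ {b, s, z}) := by
        apply lam_mono
        intro w hw
        rw [mem_erase] at hw
        rw [mem_sdiff]
        refine ⟨sdiff_subset hw.2, ?_⟩
        simp only [mem_insert, mem_singleton, not_or]
        exact ⟨(hKne w hw.2).2.1, hKs w hw.2, hw.1⟩
      rw [hz'.2] at h2
      exact caseW_end hcub hcut hconn ih hsub' n2.symm hbs hzs.symm (by omega) hbD hbo hlt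
    by_cases h1 : ∃ z ∈ D G K, G.Adj z p
    · obtain ⟨z, hz, hzp⟩ := h1
      exact key p r z hp hr hpq.symm hz hzp hzp.ne (fun w hw => (hKne w hw).1)
    by_cases h2 : ∃ z ∈ D G K, G.Adj z r
    · obtain ⟨z, hz, hzr⟩ := h2
      exact key r p z hr hp hqr hz hzr hzr.ne (fun w hw => (hKne w hw).2.2)
    push Not at h1 h2
    refine caseW_free hsub hpr hpq hqr hP hconn ih hlt ?_
    intro u hu v hv huv
    simp only [mem_insert, mem_singleton] at hv
    rcases hv with rfl | rfl | rfl
    · exact h1 u hu huv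
    · have hu' := D_subset _ hu
      rcases eq_of_out_pos (hcub v) hbo hp hr (sdiff_subset hu') hpq.symm hqr huv.symm hpr with
        e | e
      · exact (hKne u hu').1 e
      · exact (hKne u hu').2.2 e
    · exact h2 u hu huv
  · have e : ({b, q, p} : Finset V) = {p, q, b} := by
      ext w
      simp only [mem_insert, mem_singleton]
      tauto
    refine caseW_end hcub hcut hconn ih (b := b) (a := q) (x := p) (by rw [e]; exact hsub)
      hpr.symm hqr.symm hpq.symm (by rw [e]; exact hP) hbD hbo hlt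

/-- The density inequality for all vertex sets whose nonempty subsets have at least three leaving
edges. -/
theorem ineq (hcub : ∀ v, (nb G v).card = 3) (Y : Finset V)
    (hcut : ∀ C, C ⊆ Y → C.Nonempty → 3 ≤ bd G C) : Ineq G Y := by
  induction Y using Finset.strongInduction with
  | H Y IH =>
    have ih : ∀ C, C ⊂ Y → Ineq G C :=
      fun C hC => IH C hC (fun B hB hne => hcut B (hB.trans hC.1) hne)
    by_cases hconn : Conn G Y
    · have hW : ∀ b ∈ Y, b ∉ D G Y → 0 < out G Y b → 3 * lam G Y < Y.card →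
          2 * Y.card + 3 ≤ SD G Y + 7 * lam G Y :=
        fun b hb hbD hbo hlt => caseW hcub hcut hconn ih hb hbD hbo hlt
      refine ⟨?_, fun hWt hlt => ?_⟩
      · by_cases hlt : 3 * lam G Y < Y.card
        · by_cases hex : ∃ b ∈ Y, b ∉ D G Y ∧ 0 < out G Y b
          · obtain ⟨b, hb, hbD, hbo⟩ := hex
            have := hW b hb hbD hbo hlt
            omega
          · push Not at hex
            exact caseA hcub (hcut Y le_rfl (card_pos.1 (by omega))) ih hconn
              (fun v hv hv' => by have := hex v hv hv'; omega) hlt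
        · have := lam_card (G := G) Y
          omega
      · obtain ⟨b, hb, hbD, hbo⟩ := hWt Y le_rfl (card_pos.1 (by omega)) (by simp) hlt
        exact hW b hb hbD hbo hlt
    · unfold Conn at hconn
      push Not at hconn
      obtain ⟨C, hC, hne, hCY, hs⟩ := hconn
      have hs' : ∀ u ∈ C, ∀ v ∈ Y \ C, ¬ G.Adj u v := hs
      have hCss : C ⊂ Y := ⟨hC, fun hh => hCY (subset_antisymm hC hh)⟩
      exact Ineq.of_split hC hs' (ih C hCss) (ih (Y \ C) (sdiff_ssubset hC hne))

end Pool.Agent.H32.Den
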