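import Pool.Agent.H32.Den.Basic

/-!
Half-edges leaving a vertex set, and the two inequalities of the density theorem.
-/

namespace Pool.Agent.H32.Den

open Finset

variable {V : Type} [DecidableEq V] [Fintype V] (G : SimpleGraph V)

open Classical in
/-- The neighbours of `v`. -/
noncomputable def nb (v : V) : Finset V := univ.filter (fun u => G.Adj v u)

variable {G}

lemma mem_nb {u v : V} : u ∈ nb G v ↔ G.Adj v u := by
  classical
  unfold nb
  simp

variable (G)

/-- The number of edges from `v` to vertices outside `Y`. -/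
noncomputable def out (Y : Finset V) (v : V) : ℕ := (nb G v \ Y).card

/-- The number of edges leaving `Y`. -/
noncomputable def bd (Y : Finset V) : ℕ := ∑ v ∈ Y, out G Y v

/-- The number of edges leaving `Y` at vertices of `D Y`. -/
noncomputable def SD (Y : Finset V) : ℕ := ∑ v ∈ D G Y, out G Y v

variable {G}

lemma out_congr {A B : Finset V} {v : V} (h : ∀ u, G.Adj v u → (u ∈ A ↔ u ∈ B)) :
    out G A v = out G B v := by
  unfold out
  congr 1
  ext u
  simp only [mem_sdiff, mem_nb]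
  constructor
  · rintro ⟨h1, h2⟩
    exact ⟨h1, fun h3 => h2 ((h u h1).2 h3)⟩
  · rintro ⟨h1, h2⟩
    exact ⟨h1, fun h3 => h2 ((h u h1).1 h3)⟩

/-- At most the neighbours in `B \ A` are lost. -/
lemma out_le {A B R : Finset V} {v : V} (h : ∀ u, G.Adj v u → u ∈ B → u ∉ A → u ∈ R) :
    out G A v ≤ out G B v + R.card := by
  unfold out
  have : nb G v \ A ⊆ (nb G v \ B) ∪ R := by
    intro u hu
    simp only [mem_sdiff, mem_nb] at hu
    simp only [mem_union, mem_sdiff, mem_nb]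
    by_cases hB : u ∈ B
    · exact Or.inr (h u hu.1 hB hu.2)
    · exact Or.inl ⟨hu.1, hB⟩
  exact (card_le_card this).trans (card_union_le _ _)

lemma out_pos {Y : Finset V} {u v : V} (h : G.Adj v u) (hu : u ∉ Y) : 0 < out G Y v :=
  card_pos.2 ⟨u, mem_sdiff.2 ⟨mem_nb.2 h, hu⟩⟩

/-- Neighbours inside and outside. -/
lemma out_add {Y R : Finset V} {v : V} (hc : (nb G v).card = 3) (hR : R ⊆ Y)
    (h : ∀ u ∈ R, G.Adj v u) : out G Y v + R.card ≤ 3 := by
  unfold out
  rw [← hc, ← card_union_of_disjoint]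
  · apply card_le_card
    intro u hu
    rcases mem_union.1 hu with hu | hu
    · exact (mem_sdiff.1 hu).1
    · exact mem_nb.2 (h u hu)
  · rw [Finset.disjoint_left]
    intro u hu hu'
    exact (mem_sdiff.1 hu).2 (hR hu')

lemma le_out_add {Y R : Finset V} {v : V} (hc : (nb G v).card = 3)
    (h : ∀ u ∈ Y, G.Adj v u → u ∈ R) : 3 ≤ out G Y v + R.card := by
  unfold out
  rw [← hc]
  refine (card_le_card (t := (nb G v \ Y) ∪ R) ?_).trans (card_union_le _ _)
  intro u hu
  by_cases hY : u ∈ Y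
  · exact mem_union_right _ (h u hY (mem_nb.1 hu))
  · exact mem_union_left _ (mem_sdiff.2 ⟨hu, hY⟩)

/-- A vertex with three neighbours, two of which are `a, b`, and with an edge leaving `Y`, has no
further neighbour in `Y`. -/
lemma eq_of_out_pos {Y : Finset V} {v a b u : V} (hc : (nb G v).card = 3) (hv : 0 < out G Y v)
    (ha : a ∈ Y) (hb : b ∈ Y) (hu : u ∈ Y) (hva : G.Adj v a) (hvb : G.Adj v b) (hvu : G.Adj v u)
    (hab : a ≠ b) : u = a ∨ u = b := by
  by_contra hh
  rw [not_or] at hh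
  have h1 := out_add (R := {a, b, u}) hc (Y := Y) (by
    intro x hx
    simp only [mem_insert, mem_singleton] at hx
    rcases hx with rfl | rfl | rfl <;> assumption) (by
    intro x hx
    simp only [mem_insert, mem_singleton] at hx
    rcases hx with rfl | rfl | rfl <;> assumption)
  have h2 : ({a, b, u} : Finset V).card = 3 := by
    rw [Finset.card_eq_three]
    exact ⟨a, b, u, hab, fun e => hh.1 e.symm, fun e => hh.2 e.symm, rfl⟩
  omega

lemma sum_le_sum_add_one {A : Finset V} {f g : V → ℕ} {z : V}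
    (h : ∀ v ∈ A, v ≠ z → f v ≤ g v) (hz : f z ≤ g z + 1) :
    ∑ v ∈ A, f v ≤ ∑ v ∈ A, g v + 1 := by
  by_cases hzA : z ∈ A
  · rw [← Finset.add_sum_erase A f hzA, ← Finset.add_sum_erase A g hzA]
    have : ∑ v ∈ A.erase z, f v ≤ ∑ v ∈ A.erase z, g v :=
      sum_le_sum (fun v hv => h v (mem_erase.1 hv).2 (mem_erase.1 hv).1)
    omega
  · have : ∑ v ∈ A, f v ≤ ∑ v ∈ A, g v :=
      sum_le_sum (fun v hv => h v hv (fun e => hzA (e ▸ hv)))
    omega

/-- `SD` is additive over a splitting without edges between the parts. -/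
lemma SD_split {Y Z : Finset V} (hZ : Z ⊆ Y) (hs : ∀ u ∈ Z, ∀ v ∈ Y \ Z, ¬ G.Adj u v) :
    SD G Y = SD G Z + SD G (Y \ Z) := by
  have hs' : ∀ u ∈ Y \ Z, ∀ v ∈ Y \ (Y \ Z), ¬ G.Adj u v := by
    intro u hu v hv huv
    have : v ∈ Z := by
      by_contra hh
      exact (mem_sdiff.1 hv).2 (mem_sdiff.2 ⟨(mem_sdiff.1 hv).1, hh⟩)
    exact hs v this u hu huv.symm
  have h1 : D G Y = D G Z ∪ D G (Y \ Z) := by
    ext v
    rw [mem_union]
    constructor
    · intro hv
      by_cases hvZ : v ∈ Z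
      · exact Or.inl ((D_split hZ hs hvZ).1 hv)
      · exact Or.inr ((D_split sdiff_subset hs' (mem_sdiff.2 ⟨D_subset Y hv, hvZ⟩)).1 hv)
    · rintro (hv | hv)
      · exact (D_split hZ hs (D_subset Z hv)).2 hv
      · exact (D_split sdiff_subset hs' (D_subset _ hv)).2 hv
  have h2 : Disjoint (D G Z) (D G (Y \ Z)) :=
    Finset.disjoint_left.2 (fun v hv hv' => (mem_sdiff.1 (D_subset _ hv')).2 (D_subset Z hv))
  unfold SD
  rw [h1, sum_union h2]
  congr 1
  · apply sum_congr rfl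
    intro v hv
    apply out_congr
    intro u huv
    constructor
    · intro hu
      by_contra hh
      exact hs v (D_subset Z hv) u (mem_sdiff.2 ⟨hu, hh⟩) huv
    · intro hu
      exact hZ hu
  · apply sum_congr rfl
    intro v hv
    apply out_congr
    intro u huv
    constructor
    · intro hu
      refine mem_sdiff.2 ⟨hu, fun hh => ?_⟩
      exact hs u hh v (D_subset _ hv) huv.symm
    · intro hu
      exact sdiff_subset hu

variable (G)

/-- `Y` induces a connected subgraph (cut form; the empty set counts as connected). -/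
def Conn (Y : Finset V) : Prop :=
  ∀ C ⊆ Y, C.Nonempty → C ≠ Y → ∃ u ∈ C, ∃ v ∈ Y \ C, G.Adj u v

/-- Every union of components of `Y` that is not perfectly packed has a vertex with an edge leaving
`Y` which is covered by every maximum packing. -/
def Wt (Y : Finset V) : Prop :=
  ∀ Z ⊆ Y, Z.Nonempty → (∀ u ∈ Z, ∀ v ∈ Y \ Z, ¬ G.Adj u v) → 3 * lam G Z < Z.card →
    ∃ v ∈ Z, v ∉ D G Z ∧ 0 < out G Z v

/-- The two inequalities. -/
def Ineq (Y : Finset V) : Prop :=
  2 * Y.card ≤ SD G Y + 7 * lam G Y ∧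
    (Wt G Y → 3 * lam G Y < Y.card → 2 * Y.card + 3 ≤ SD G Y + 7 * lam G Y)

variable {G}

lemma Wt.sub {Y Z : Finset V} (h : Wt G Y) (hZ : Z ⊆ Y)
    (hs : ∀ u ∈ Z, ∀ v ∈ Y \ Z, ¬ G.Adj u v) : Wt G Z := by
  intro C hC hne hsC hlt
  refine h C (hC.trans hZ) hne ?_ hlt
  intro u hu v hv
  by_cases hvZ : v ∈ Z
  · exact hsC u hu v (mem_sdiff.2 ⟨hvZ, (mem_sdiff.1 hv).2⟩)
  · exact hs u (hC hu) v (mem_sdiff.2 ⟨(mem_sdiff.1 hv).1, hvZ⟩)

/-- Splitting a disconnected set. -/
lemma Ineq.of_split {Y Z : Finset V} (hZ : Z ⊆ Y) (hs : ∀ u ∈ Z, ∀ v ∈ Y \ Z, ¬ G.Adj u v)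
    (h1 : Ineq G Z) (h2 : Ineq G (Y \ Z)) : Ineq G Y := by
  have hs' : ∀ u ∈ Y \ Z, ∀ v ∈ Y \ (Y \ Z), ¬ G.Adj u v := by
    intro u hu v hv huv
    have : v ∈ Z := by
      by_contra hh
      exact (mem_sdiff.1 hv).2 (mem_sdiff.2 ⟨(mem_sdiff.1 hv).1, hh⟩)
    exact hs v this u hu huv.symm
  have e1 := SD_split hZ hs
  have e2 := lam_split hZ hs
  have e3 := card_sdiff_add_card_eq_card hZ
  refine ⟨by have := h1.1; have := h2.1; omega, fun hW hlt => ?_⟩
  have w1 := hW.sub hZ hs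
  have w2 := hW.sub sdiff_subset hs'
  have a1 := h1.1
  have a2 := h2.1
  by_cases hc : 3 * lam G Z < Z.card
  · have := h1.2 w1 hc
    omega
  · have := lam_card (G := G) Z
    have := lam_card (G := G) (Y \ Z)
    have := h2.2 w2 (by omega)
    omega

/-- A connected set that is `Wt`. -/
lemma wt_of_conn {Y : Finset V} (hY : Conn G Y) {b : V} (hb : b ∈ Y) (hbD : b ∉ D G Y)
    (hbo : 0 < out G Y b) : Wt G Y := by
  intro Z hZ hne hs hlt
  by_cases hZY : Z = Y
  · subst hZY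
    exact ⟨b, hb, hbD, hbo⟩
  · obtain ⟨u, hu, v, hv, huv⟩ := hY Z hZ hne hZY
    exact absurd huv (hs u hu v hv)

/-- After removing `R` from a connected set: if no vertex of `D` is adjacent to `R`, then `Wt`. -/
lemma wt_sdiff {Y R : Finset V} (hY : Conn G Y) (hR : R.Nonempty) (hRY : R ⊆ Y)
    (h : ∀ u ∈ D G (Y \ R), ∀ v ∈ R, ¬ G.Adj u v) : Wt G (Y \ R) := by
  intro Z hZ hne hs hlt
  have hZY : Z ≠ Y := by
    rintro rfl
    obtain ⟨r, hr⟩ := hR
    exact (mem_sdiff.1 (hZ (hRY hr))).2 hr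
  obtain ⟨u, hu, v, hv, huv⟩ := hY Z (hZ.trans sdiff_subset) hne hZY
  rw [mem_sdiff] at hv
  have hvR : v ∈ R := by
    by_contra hh
    exact hs u hu v (mem_sdiff.2 ⟨mem_sdiff.2 ⟨hv.1, hh⟩, hv.2⟩) huv
  refine ⟨u, hu, fun hD => ?_, out_pos huv hv.2⟩
  exact h u ((D_split hZ hs hu).2 hD) v hvR huv

end Pool.Agent.H32.Den
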