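import Pool.Agent.H32.Den.Bridge

/-!
The bridge situation when the part behind the bridge has one or two vertices.
-/

namespace Pool.Agent.H32.Den

open Finset

variable {V : Type} [DecidableEq V] [Fintype V] {G : SimpleGraph V}

/-- A pendant vertex `z` at `b`. -/
lemma small_one {Y : Finset V} {z b a x : V} (hcub : ∀ v, (nb G v).card = 3)
    (hcut : ∀ C, C ⊆ Y → C.Nonempty → 3 ≤ bd G C) (h : Br G Y {z} z b)
    (ih : ∀ C, C ⊂ Y → Ineq G C)
    (hM : (Y \ {z}).card = 3 * lam G (Y \ {z})) (hlY : lam G Y = lam G (Y \ {z}))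
    (hbo : 0 < out G Y b) (ha : a ∈ Y) (hx : x ∈ Y) (haz : a ≠ z)
    (hxz : x ≠ z) (hba : G.Adj b a) (hax : G.Adj a x) (hbx : b ≠ x)
    (hP : lam G (Y \ {z}) = lam G ((Y \ {z}) \ {b, a, x}) + 1) :
    2 * Y.card + 3 ≤ SD G Y + 7 * lam G Y := by
  have hz : z ∈ Y := h.sub (mem_singleton_self z)
  have hzb : z ≠ b := fun e => h.hbZ (mem_singleton.2 e.symm)
  have hnb : ∀ u ∈ Y, G.Adj b u → u = a ∨ u = z := by
    intro u hu hbu
    exact eq_of_out_pos (hcub b) hbo ha hz hu hba h.adj.symm hbu haz
  have hnz : ∀ u ∈ Y, G.Adj z u → u = b := by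
    intro u hu hzu
    exact (h.only z (mem_singleton_self z) u
      (mem_sdiff.2 ⟨hu, fun hh => hzu.ne (mem_singleton.1 hh).symm⟩) hzu).2
  set M := Y \ {z} with hMdef
  have hbM : b ∈ M := mem_sdiff.2 ⟨h.hb, fun hh => hzb (mem_singleton.1 hh).symm⟩
  have haM : a ∈ M := mem_sdiff.2 ⟨ha, fun hh => haz (mem_singleton.1 hh)⟩
  have hxM : x ∈ M := mem_sdiff.2 ⟨hx, fun hh => hxz (mem_singleton.1 hh)⟩
  have hMY : M ⊆ Y := sdiff_subset
  set N := M \ {b, a} with hNdef
  have hbasub : ({b, a} : Finset V) ⊆ M := by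
    intro w hw
    simp only [mem_insert, mem_singleton] at hw
    rcases hw with rfl | rfl <;> assumption
  have hNcard : N.card + 2 = M.card := by
    have := card_sdiff_add_card_eq_card hbasub
    rwa [card_pair hba.ne] at this
  have hYcard : M.card + 1 = Y.card := by
    have := card_sdiff_add_card_eq_card (singleton_subset_iff.2 hz)
    rwa [card_singleton] at this
  have hNM : N ⊆ M := sdiff_subset
  have hlN : lam G N + 1 = lam G M := by
    have h1 : lam G (M \ {b, a, x}) ≤ lam G N := by
      apply lam_mono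
      intro w hw
      simp only [hNdef, mem_sdiff, mem_insert, mem_singleton, not_or] at hw ⊢
      exact ⟨hw.1, hw.2.1, hw.2.2.1⟩
    have h2 := lam_card (G := G) N
    omega
  have hNss : N ⊂ Y := by
    refine ⟨hNM.trans hMY, fun hh => ?_⟩
    have := (mem_sdiff.1 (hh h.hb)).2
    simp at this
  -- `D N ⊆ D Y`
  have hDN : ∀ w ∈ D G N, w ∈ D G Y := by
    intro w hw
    have hw' := mem_D.1 hw
    have hwM := (mem_sdiff.1 hw'.1).1
    have hwba := (mem_sdiff.1 hw'.1).2
    simp only [mem_insert, mem_singleton, not_or] at hwba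
    have hwz : w ≠ z := fun e => (mem_sdiff.1 hwM).2 (mem_singleton.2 e)
    have h1 : lam G (N.erase w) + 1 ≤ lam G (Y.erase w) := by
      refine lam_path' (a := z) (b := b) (c := a) (mem_erase.2 ⟨hwz.symm, hz⟩)
        (mem_erase.2 ⟨Ne.symm hwba.1, h.hb⟩) (mem_erase.2 ⟨Ne.symm hwba.2, ha⟩) haz.symm h.adj hba
        (erase_subset_erase _ (hNM.trans hMY)) ?_ ?_ ?_
      · exact fun hh => (mem_sdiff.1 (hNM (mem_erase.1 hh).2)).2 (mem_singleton_self z)
      · exact fun hh => (mem_sdiff.1 (mem_erase.1 hh).2).2 (by simp)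
      · exact fun hh => (mem_sdiff.1 (mem_erase.1 hh).2).2 (by simp)
    refine mem_D_of_le (K := Y.erase w) (hMY hwM) (erase_subset _ _) (notMem_erase _ _) ?_
    rw [hw'.2] at h1
    omega
  have hzD : z ∈ D G Y := mem_D_of_le (K := M) hz hMY
    (fun hh => (mem_sdiff.1 hh).2 (mem_singleton_self z)) hlY.le
  have hzo : 2 ≤ out G Y z := by
    have := le_out_add (G := G) (Y := Y) (R := {b}) (hcub z) (fun u hu hzu => by
      rw [mem_singleton]; exact hnz u hu hzu)
    rw [card_singleton] at this
    omega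
  -- the loss at `a`
  set T := (D G N).filter (fun w => w ∈ nb G a) with hT
  have h1 : SD G N ≤ ∑ w ∈ D G N, out G Y w + T.card := by
    have h2 : ∀ w ∈ D G N, out G N w ≤ out G Y w + if w ∈ nb G a then 1 else 0 := by
      intro w hw
      have hwN := D_subset _ hw
      have hwM := (mem_sdiff.1 hwN).1
      have hwba := (mem_sdiff.1 hwN).2
      simp only [mem_insert, mem_singleton, not_or] at hwba
      have hwz : w ≠ z := fun e => (mem_sdiff.1 hwM).2 (mem_singleton.2 e)
      have h3 := out_le (G := G) (A := N) (B := Y)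
        (R := if w ∈ nb G a then {a} else ∅) (v := w) (by
          intro u hwu hu huN
          have hu3 : u = z ∨ u = b ∨ u = a := by
            by_contra hh
            rw [not_or, not_or] at hh
            apply huN
            rw [hNdef, mem_sdiff, hMdef, mem_sdiff]
            refine ⟨⟨hu, fun e => hh.1 (mem_singleton.1 e)⟩, ?_⟩
            simp only [mem_insert, mem_singleton, not_or]
            exact hh.2
          rcases hu3 with rfl | rfl | rfl
          · exact absurd (hnz w (hMY hwM) hwu.symm) hwba.1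
          · rcases hnb w (hMY hwM) hwu.symm with e | e
            · exact absurd e hwba.2
            · exact absurd e hwz
          · rw [if_pos (mem_nb.2 hwu.symm)]
            exact mem_singleton_self _)
      split_ifs at h3 ⊢ with hif
      · rwa [card_singleton] at h3
      · rwa [card_empty] at h3
    calc SD G N = ∑ w ∈ D G N, out G N w := rfl
      _ ≤ ∑ w ∈ D G N, (out G Y w + if w ∈ nb G a then 1 else 0) := sum_le_sum h2
      _ = ∑ w ∈ D G N, out G Y w + T.card := by
        rw [sum_add_distrib, hT, card_filter]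
  have hT1 : T.card ≤ N.card := card_le_card (fun w hw => D_subset _ (mem_filter.1 hw).1)
  have hT2 : T.card ≤ 2 := by
    have h3 : T ⊆ (nb G a).erase b := by
      intro w hw
      rw [hT, mem_filter] at hw
      refine mem_erase.2 ⟨?_, hw.2⟩
      rintro rfl
      exact (mem_sdiff.1 (D_subset _ hw.1)).2 (by simp)
    have h4 := card_le_card h3
    rw [card_erase_of_mem (mem_nb.2 hba.symm), hcub] at h4
    omega
  have h2 : ∑ w ∈ D G N, out G Y w + out G Y z ≤ SD G Y := by
    have hzN : z ∉ D G N := fun hh =>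
      (mem_sdiff.1 (hNM (D_subset _ hh))).2 (mem_singleton_self z)
    have h3 : ∑ w ∈ insert z (D G N), out G Y w = out G Y z + ∑ w ∈ D G N, out G Y w :=
      sum_insert hzN
    have h4 : ∑ w ∈ insert z (D G N), out G Y w ≤ SD G Y := by
      unfold SD
      apply sum_le_sum_of_subset
      intro w hw
      rcases mem_insert.1 hw with rfl | hw
      · exact hzD
      · exact hDN w hw
    omega
  have h3 : 2 * N.card + 3 ≤ SD G N + 7 * lam G N ∨ 3 ≤ SD G N := by
    by_cases hW : Wt G N
    · exact Or.inl ((ih N hNss).2 hW (by omega))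
    · right
      unfold Wt at hW
      push Not at hW
      obtain ⟨C, hC, hne, hs, hlt, hall⟩ := hW
      have e1 := SD_split hC hs
      have e2 := SD_eq_bd (G := G) (Y := C) (fun v hv hv' => by
        have := hall v hv hv'
        omega)
      have e3 := hcut C (hC.trans (hNM.trans hMY)) hne
      omega
  omega

/-- A pendant edge `z' z` at `b`. -/
lemma small_two {Y : Finset V} {z z' b a x : V} (hcub : ∀ v, (nb G v).card = 3)
    (h : Br G Y {z, z'} z b) (hzz' : G.Adj z z')
    (ih : ∀ C, C ⊂ Y → Ineq G C)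
    (hM : (Y \ {z, z'}).card = 3 * lam G (Y \ {z, z'})) (hlY : lam G Y = lam G (Y \ {z, z'}))
    (hbo : 0 < out G Y b) (ha : a ∈ Y) (haz : a ≠ z) (haz' : a ≠ z') (hba : G.Adj b a)
    (hP : lam G (Y \ {z, z'}) = lam G ((Y \ {z, z'}) \ {b, a, x}) + 1) :
    2 * Y.card + 3 ≤ SD G Y + 7 * lam G Y := by
  have hz : z ∈ Y := h.sub (by simp)
  have hz' : z' ∈ Y := h.sub (by simp)
  have hbz : b ≠ z := fun e => h.hbZ (by simp [e])
  have hbz' : b ≠ z' := fun e => h.hbZ (by simp [e])
  have hnb : ∀ u ∈ Y, G.Adj b u → u = a ∨ u = z := by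
    intro u hu hbu
    exact eq_of_out_pos (hcub b) hbo ha hz hu hba h.adj.symm hbu haz
  set M := Y \ {z, z'} with hMdef
  have hbM : b ∈ M := mem_sdiff.2 ⟨h.hb, h.hbZ⟩
  have haM : a ∈ M := mem_sdiff.2 ⟨ha, by
    simp only [mem_insert, mem_singleton, not_or]; exact ⟨haz, haz'⟩⟩
  have hMY : M ⊆ Y := sdiff_subset
  set N := M \ {b} with hNdef
  have hNcard : N.card + 1 = M.card := by
    have := card_sdiff_add_card_eq_card (singleton_subset_iff.2 hbM)
    rwa [card_singleton] at this
  have hYcard : M.card + 2 = Y.card := by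
    have := card_sdiff_add_card_eq_card h.sub
    rwa [card_pair hzz'.ne] at this
  have hNM : N ⊆ M := sdiff_subset
  have hlN : lam G N + 1 = lam G M := by
    have h1 : lam G (M \ {b, a, x}) ≤ lam G N := by
      apply lam_mono
      intro w hw
      simp only [hNdef, mem_sdiff, mem_insert, mem_singleton, not_or] at hw ⊢
      exact ⟨hw.1, hw.2.1⟩
    have h2 := lam_card (G := G) N
    omega
  have hNss : N ⊂ Y := by
    refine ⟨hNM.trans hMY, fun hh => ?_⟩
    exact (mem_sdiff.1 (hh h.hb)).2 (mem_singleton_self b)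
  have hDN : ∀ w ∈ D G N, w ∈ D G Y := by
    intro w hw
    have hw' := mem_D.1 hw
    have hwM := (mem_sdiff.1 hw'.1).1
    have hwb : w ≠ b := fun e => (mem_sdiff.1 hw'.1).2 (mem_singleton.2 e)
    have hwz := (mem_sdiff.1 hwM).2
    simp only [mem_insert, mem_singleton, not_or] at hwz
    have h1 : lam G (N.erase w) + 1 ≤ lam G (Y.erase w) := by
      refine lam_path' (a := z') (b := z) (c := b) (mem_erase.2 ⟨Ne.symm hwz.2, hz'⟩)
        (mem_erase.2 ⟨Ne.symm hwz.1, hz⟩) (mem_erase.2 ⟨hwb.symm, h.hb⟩) hbz'.symm hzz'.symm h.adj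
        (erase_subset_erase _ (hNM.trans hMY)) ?_ ?_ ?_
      · exact fun hh => (mem_sdiff.1 (hNM (mem_erase.1 hh).2)).2 (by simp)
      · exact fun hh => (mem_sdiff.1 (hNM (mem_erase.1 hh).2)).2 (by simp)
      · exact fun hh => (mem_sdiff.1 (mem_erase.1 hh).2).2 (by simp)
    refine mem_D_of_le (K := Y.erase w) (hMY hwM) (erase_subset _ _) (notMem_erase _ _) ?_
    rw [hw'.2] at h1
    omega
  have hzD : z ∈ D G Y := mem_D_of_le (K := M) hz hMY
    (fun hh => (mem_sdiff.1 hh).2 (by simp)) hlY.le
  have hzD' : z' ∈ D G Y := mem_D_of_le (K := M) hz' hMY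
    (fun hh => (mem_sdiff.1 hh).2 (by simp)) hlY.le
  have hzo : 1 ≤ out G Y z := by
    have := le_out_add (G := G) (Y := Y) (R := {z', b}) (hcub z) (fun u hu hzu => by
      by_cases hu' : u ∈ ({z, z'} : Finset V)
      · simp only [mem_insert, mem_singleton] at hu' ⊢
        rcases hu' with rfl | rfl
        · exact absurd rfl hzu.ne
        · exact Or.inl rfl
      · have := h.only z (by simp) u (mem_sdiff.2 ⟨hu, hu'⟩) hzu
        simp [this.2])
    have h2 : ({z', b} : Finset V).card ≤ 2 := card_le_two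
    omega
  have hzo' : 2 ≤ out G Y z' := by
    have := le_out_add (G := G) (Y := Y) (R := {z}) (hcub z') (fun u hu hzu => by
      by_cases hu' : u ∈ ({z, z'} : Finset V)
      · simp only [mem_insert, mem_singleton] at hu' ⊢
        rcases hu' with rfl | rfl
        · rfl
        · exact absurd rfl hzu.ne
      · have := h.only z' (by simp) u (mem_sdiff.2 ⟨hu, hu'⟩) hzu
        exact absurd this.1 hzz'.ne.symm)
    rw [card_singleton] at this
    omega
  have h1 : SD G N ≤ ∑ w ∈ D G N, out G Y w + 1 := by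
    unfold SD
    have key : ∀ w ∈ N, ∀ u, G.Adj w u → u ∈ Y → u ∉ N → w = a ∧ u = b := by
      intro w hw u hwu hu huN
      have hwM := (mem_sdiff.1 hw).1
      have hwb : w ≠ b := fun e => (mem_sdiff.1 hw).2 (mem_singleton.2 e)
      by_cases hub : u = b
      · subst hub
        rcases hnb w (hMY hwM) hwu.symm with e | e
        · exact ⟨e, rfl⟩
        · exact absurd (by simp [e]) (mem_sdiff.1 hwM).2
      · have huZ : u ∈ ({z, z'} : Finset V) := by
          by_contra hh
          exact huN (mem_sdiff.2 ⟨mem_sdiff.2 ⟨hu, hh⟩, fun e => hub (mem_singleton.1 e)⟩)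
        exact absurd (h.only u huZ w hwM hwu.symm).2 hwb
    apply sum_le_sum_add_one (z := a)
    · intro w hw hwa
      apply le_of_eq
      apply out_congr
      intro u hwu
      constructor
      · exact fun hu => hMY (hNM hu)
      · intro hu
        by_contra hh
        exact hwa (key w (D_subset _ hw) u hwu hu hh).1
    · have haN : a ∈ N := mem_sdiff.2 ⟨haM, fun e => hba.ne (mem_singleton.1 e).symm⟩
      have := out_le (G := G) (A := N) (B := Y) (R := {b}) (v := a) (by
        intro u hau hu huN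
        rw [mem_singleton]
        exact (key a haN u hau hu huN).2)
      rwa [card_singleton] at this
  have h2 : ∑ w ∈ D G N, out G Y w + out G Y z + out G Y z' ≤ SD G Y := by
    have hzN' : z' ∉ D G N := fun hh => (mem_sdiff.1 (hNM (D_subset _ hh))).2 (by simp)
    have hzN : z ∉ insert z' (D G N) := by
      rw [mem_insert, not_or]
      exact ⟨hzz'.ne, fun hh => (mem_sdiff.1 (hNM (D_subset _ hh))).2 (by simp)⟩
    have h3 : ∑ w ∈ insert z (insert z' (D G N)), out G Y w =
        out G Y z + (out G Y z' + ∑ w ∈ D G N, out G Y w) := by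
      rw [sum_insert hzN, sum_insert hzN']
    have h4 : ∑ w ∈ insert z (insert z' (D G N)), out G Y w ≤ SD G Y := by
      unfold SD
      apply sum_le_sum_of_subset
      intro w hw
      rcases mem_insert.1 hw with rfl | hw
      · exact hzD
      · rcases mem_insert.1 hw with rfl | hw
        · exact hzD'
        · exact hDN w hw
    omega
  have h3 := (ih N hNss).1
  omega

end Pool.Agent.H32.Den
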