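import Pool.Agent.H32.Den.CaseW
import Pool.Agent.H7.P3.Defs

/-!
The density theorem for 3-connected cubic graphs.
-/

namespace Pool.Agent.H32.Den

open Finset

variable {V : Type} [DecidableEq V] [Fintype V] {G : SimpleGraph V}

lemma walk_closed {V : Type} {H : SimpleGraph V} {P : V → Prop}
    (hP : ∀ u v, H.Adj u v → P u → P v) {x y : V} (p : H.Walk x y) (hx : P x) : P y := by
  induction p with
  | nil => exact hx
  | cons h _ ih => exact ih (hP _ _ h hx)

/-- In a 3-connected cubic graph every proper nonempty vertex set has at least three leaving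
edges. -/
lemma three_le_bd (hcub : ∀ v, (nb G v).card = 3)
    (hconn : ∀ S : Set V, S.ncard ≤ 2 → (G.induce Sᶜ).Connected) {C : Finset V}
    (hne : C.Nonempty) (hC : C ≠ univ) : 3 ≤ bd G C := by
  by_contra hlt
  rw [not_le] at hlt
  obtain ⟨y, hy⟩ : ∃ y, y ∉ C := by
    by_contra hh
    push Not at hh
    exact hC (eq_univ_of_forall hh)
  let A : Finset V := C.filter (fun v => 0 < out G C v)
  have hAC : A ⊆ C := filter_subset _ _
  have hA : A.card ≤ bd G C := by
    unfold bd
    calc A.card = ∑ v ∈ A, 1 := by simp
      _ ≤ ∑ v ∈ A, out G C v := sum_le_sum (fun v hv => (mem_filter.1 hv).2)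
      _ ≤ ∑ v ∈ C, out G C v := sum_le_sum_of_subset hAC
  have hCA : C ⊆ A := by
    intro x hx
    by_contra hxA
    have h1 := hconn (A : Set V) (by rw [Set.ncard_coe_finset]; omega)
    have hyA : y ∉ A := fun h => hy (hAC h)
    obtain ⟨p⟩ := h1.preconnected ⟨x, by simpa using hxA⟩ ⟨y, by simpa using hyA⟩
    have h2 := walk_closed (P := fun z => z.1 ∈ C) (by
      rintro ⟨u, hu⟩ ⟨v, hv⟩ huv huC
      have huv' : G.Adj u v := huv
      have hu' : u ∉ A := by simpa using hu
      by_contra hvC
      exact hu' (mem_filter.2 ⟨huC, out_pos huv' hvC⟩)) p hx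
    exact hy h2
  have hcard : C.card ≤ 2 := (card_le_card hCA).trans (by omega)
  have h3 : ∀ v ∈ C, 3 ≤ out G C v + (C.card - 1) := by
    intro v hv
    have := le_out_add (Y := C) (R := C.erase v) (v := v) (hcub v)
      (fun u hu huv => mem_erase.2 ⟨huv.ne', hu⟩)
    rw [card_erase_of_mem hv] at this
    exact this
  have h4 : C.card * (4 - C.card) ≤ bd G C := by
    unfold bd
    rw [← smul_eq_mul, ← sum_const]
    exact sum_le_sum (fun v hv => by have := h3 v hv; have := card_pos.2 hne; omega)
  have h5 := card_pos.2 hne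
  interval_cases h : C.card <;> omega

lemma conn_univ (hb : ∀ C : Finset V, C.Nonempty → C ≠ univ → 3 ≤ bd G C) :
    Conn G (univ : Finset V) := by
  intro C _ hne hC
  have h1 := hb C hne hC
  obtain ⟨u, hu, hpos⟩ : ∃ u ∈ C, 0 < out G C u := by
    by_contra hh
    push Not at hh
    have : bd G C = 0 := sum_eq_zero (fun u hu => by have := hh u hu; omega)
    omega
  obtain ⟨v, hv⟩ := card_pos.1 hpos
  rw [mem_sdiff, mem_nb] at hv
  exact ⟨u, hu, v, by simp [hv.2], hv.1⟩

lemma even_card (hcub : ∀ v, (nb G v).card = 3) : Even (Fintype.card V) := by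
  classical
  have h1 := G.sum_degrees_eq_twice_card_edges
  have h2 : ∀ v, G.degree v = 3 := by
    intro v
    rw [← hcub v, ← SimpleGraph.card_neighborFinset_eq_degree]
    congr 1
    ext u
    rw [SimpleGraph.mem_neighborFinset, mem_nb]
  simp only [h2, sum_const, card_univ, smul_eq_mul] at h1
  rw [Nat.even_iff]
  omega

lemma SD_le_three {v : V} (hcub : ∀ v, (nb G v).card = 3) : SD G (univ.erase v) ≤ 3 := by
  have h1 : ∀ u : V, out G (univ.erase v) u ≤ if u ∈ nb G v then 1 else 0 := by
    intro u
    unfold out
    split_ifs with h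
    · refine (card_le_card (t := {v}) ?_).trans (by simp)
      intro w hw
      simp only [mem_sdiff, mem_erase, mem_univ, and_true, not_not] at hw
      simp [hw.2]
    · rw [Nat.le_zero, card_eq_zero, eq_empty_iff_forall_notMem]
      intro w hw
      simp only [mem_sdiff, mem_erase, mem_univ, and_true, not_not, mem_nb] at hw
      obtain ⟨h2, rfl⟩ := hw
      exact h (mem_nb.2 h2.symm)
  calc SD G (univ.erase v) ≤ ∑ u ∈ D G (univ.erase v), (if u ∈ nb G v then 1 else 0) :=
        sum_le_sum (fun u _ => h1 u)
    _ ≤ ∑ u : V, (if u ∈ nb G v then 1 else 0) := sum_le_sum_of_subset (subset_univ _)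
    _ = (nb G v).card := by simp
    _ = 3 := hcub v

lemma SD_eq_zero {Y : Finset V} (h : ∀ u ∈ D G Y, ∀ v, v ∉ Y → ¬ G.Adj u v) : SD G Y = 0 := by
  unfold SD
  refine sum_eq_zero (fun u hu => ?_)
  unfold out
  rw [card_eq_zero, eq_empty_iff_forall_notMem]
  intro w hw
  rw [mem_sdiff, mem_nb] at hw
  exact h u hu w hw.2 hw.1

/-- The density bound, in terms of `lam`. -/
theorem density (hcub : ∀ v, (nb G v).card = 3)
    (hb : ∀ C : Finset V, C.Nonempty → C ≠ univ → 3 ≤ bd G C) :
    Fintype.card V < 3 * lam G univ + 3 ∨ 2 * Fintype.card V ≤ 7 * lam G univ + 1 := by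
  rcases Nat.lt_or_ge (Fintype.card V) (3 * lam G univ + 3) with hlt | hge
  · exact Or.inl hlt
  refine Or.inr ?_
  have hineq : ∀ Y : Finset V, Y ≠ univ → Ineq G Y := by
    intro Y hY
    refine ineq hcub Y (fun C hC hne => hb C hne ?_)
    rintro rfl
    exact hY (eq_univ_of_forall (fun x => hC (mem_univ x)))
  have hcn := conn_univ hb
  have hcard : (univ : Finset V).card = Fintype.card V := card_univ
  have hpos : 0 < Fintype.card V := by omega
  obtain ⟨v⟩ : Nonempty V := Fintype.card_pos_iff.1 hpos
  have hv : (univ.erase v : Finset V) ≠ univ := fun h => by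
    have := mem_univ v
    rw [← h] at this
    exact notMem_erase _ _ this
  have hc1 : (univ.erase v : Finset V).card + 1 = Fintype.card V := by
    rw [card_erase_of_mem (mem_univ v), hcard]; omega
  by_cases hvD : v ∈ D G (univ : Finset V)
  · have hl1 : lam G (univ.erase v) = lam G univ := (mem_D.1 hvD).2
    by_cases hex : ∃ u ∈ D G (univ.erase v), G.Adj v u
    · obtain ⟨u, hu, hvu⟩ := hex
      have hl2 : lam G ((univ.erase v).erase u) = lam G univ := by
        rw [(mem_D.1 hu).2, hl1]
      have hue : u ∈ (univ.erase v : Finset V) := D_subset _ hu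
      have hc2 : ((univ.erase v).erase u : Finset V).card + 2 = Fintype.card V := by
        rw [card_erase_of_mem hue]; omega
      have hsd : ((univ.erase v).erase u : Finset V) = univ \ {v, u} := by
        ext x
        simp only [mem_erase, mem_univ, and_true, mem_sdiff, mem_insert, mem_singleton, true_and,
          not_or]
        exact and_comm
      have hnot : ∀ w ∈ D G ((univ.erase v).erase u), ∀ z, z = v ∨ z = u → ¬ G.Adj w z := by
        intro w hw z hz hwz
        have hl3 : lam G (((univ.erase v).erase u).erase w) = lam G univ := by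
          rw [(mem_D.1 hw).2, hl2]
        have hw' := D_subset _ hw
        simp only [mem_erase, mem_univ, and_true] at hw'
        rcases hz with rfl | rfl
        · have := lam_path' (G := G) (Y := univ) (K := ((univ.erase z).erase u).erase w)
            (a := w) (b := z) (c := u) (mem_univ _) (mem_univ _) (mem_univ _) hw'.1 hwz hvu
            (subset_univ _) (by simp) (by simp) (by simp)
          omega
        · have := lam_path' (G := G) (Y := univ) (K := ((univ.erase v).erase z).erase w)
            (a := w) (b := z) (c := v) (mem_univ _) (mem_univ _) (mem_univ _) hw'.2 hwz hvu.symm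
            (subset_univ _) (by simp) (by simp) (by simp)
          omega
      have hs0 : SD G ((univ.erase v).erase u) = 0 := by
        refine SD_eq_zero (fun w hw z hz => hnot w hw z ?_)
        simp only [mem_erase, mem_univ, and_true, not_and, not_not] at hz
        by_cases hzv : z = v
        · exact Or.inl hzv
        · right
          by_contra hzu
          exact hzv (hz hzu)
      have hwt : Wt G ((univ.erase v).erase u) := by
        rw [hsd]
        refine wt_sdiff hcn ⟨v, by simp⟩ (subset_univ _) ?_
        intro w hw z hz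
        rw [← hsd] at hw
        refine hnot w hw z ?_
        simpa using hz
      have := (hineq ((univ.erase v).erase u) (fun h => by
        have := mem_univ u
        rw [← h] at this
        exact notMem_erase _ _ this)).2 hwt (by omega)
      omega
    · push Not at hex
      have hs0 : SD G (univ.erase v) = 0 := by
        refine SD_eq_zero (fun w hw z hz hwz => ?_)
        simp only [mem_erase, mem_univ, and_true, not_not] at hz
        subst hz
        exact hex w hw hwz.symm
      have hsd : (univ.erase v : Finset V) = univ \ {v} := by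
        ext x
        simp
      have hwt : Wt G (univ.erase v) := by
        rw [hsd]
        refine wt_sdiff hcn ⟨v, by simp⟩ (subset_univ _) ?_
        intro w hw z hz hwz
        rw [← hsd] at hw
        rw [mem_singleton] at hz
        subst hz
        exact hex w hw hwz.symm
      have := (hineq _ hv).2 hwt (by omega)
      omega
  · have h1 := lam_lt_of_not_mem_D (mem_univ v) hvD
    have h2 := (hineq _ hv).1
    have h3 := SD_le_three (G := G) (v := v) hcub
    omega

lemma Pk.hasPaths {V : Type} [DecidableEq V] {G : SimpleGraph V} {k : ℕ} {Y : Finset V}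
    (h : Pk G k Y) : ∃ g : Fin k → Fin 3 → V, (∀ i j, g i j ∈ Y) ∧
      Function.Injective (fun p : Fin k × Fin 3 => g p.1 p.2) ∧
      ∀ i, G.Adj (g i 0) (g i 1) ∧ G.Adj (g i 1) (g i 2) := by
  induction k generalizing Y with
  | zero => exact ⟨fun i => i.elim0, fun i => i.elim0, fun p => p.1.elim0, fun i => i.elim0⟩
  | succ k ih =>
    obtain ⟨a, b, c, h1, h2, h3, h4, h5⟩ := h
    obtain ⟨g, g1, g2, g3⟩ := ih h5
    have ht : ∀ j : Fin 3, (![a, b, c] : Fin 3 → V) j ∈ ({a, b, c} : Finset V) := by
      intro j; fin_cases j <;> simp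
    have hinj : Function.Injective (![a, b, c] : Fin 3 → V) := by
      intro i j hij
      fin_cases i <;> fin_cases j <;> simp_all [h3.ne, h4.ne, h3.ne', h4.ne', h2.symm]
    refine ⟨Fin.cons ![a, b, c] g, ?_, ?_, ?_⟩
    · intro i j
      refine Fin.cases ?_ (fun i => ?_) i
      · rw [Fin.cons_zero]
        exact h1 (ht j)
      · rw [Fin.cons_succ]
        exact sdiff_subset (g1 i j)
    · rintro ⟨i, j⟩ ⟨i', j'⟩ he
      dsimp only at he
      revert he
      refine Fin.cases ?_ (fun i => ?_) i
      · refine Fin.cases ?_ (fun i' => ?_) i'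
        · rw [Fin.cons_zero]
          intro he
          rw [hinj he]
        · rw [Fin.cons_zero, Fin.cons_succ]
          intro he
          exact absurd (he ▸ ht j) (mem_sdiff.1 (g1 i' j')).2
      · refine Fin.cases ?_ (fun i' => ?_) i'
        · rw [Fin.cons_zero, Fin.cons_succ]
          intro he
          exact absurd (he ▸ ht j') (mem_sdiff.1 (g1 i j)).2
        · rw [Fin.cons_succ, Fin.cons_succ]
          intro he
          have := g2 (a₁ := (i, j)) (a₂ := (i', j')) he
          simp only [Prod.mk.injEq] at this
          rw [this.1, this.2]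
    · intro i
      refine Fin.cases ?_ (fun i => ?_) i
      · rw [Fin.cons_zero]
        exact ⟨h3, h4⟩
      · rw [Fin.cons_succ]
        exact g3 i

open Pool.Agent.H7.P3 in
/-- Every 3-connected cubic graph on `n` vertices has `k` disjoint three-vertex paths where `k` is
`⌊n / 3⌋` or `7 k ≥ 2 n - 1`. -/
theorem main {V : Type} {G : SimpleGraph V} (hG : CubicThreeConnected G) :
    ∃ k, HasPaths G k ∧ (k = Nat.card V / 3 ∨ 2 * Nat.card V ≤ 7 * k + 1) := by
  classical
  have hf := hG.finite
  have := Fintype.ofFinite V
  have hcub : ∀ v, (nb G v).card = 3 := by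
    intro v
    rw [← hG.cubic v, ← Set.ncard_coe_finset]
    congr 1
    ext u
    rw [mem_coe, mem_nb, SimpleGraph.mem_neighborSet]
  have hb := fun (C : Finset V) (h1 : C.Nonempty) (h2 : C ≠ univ) =>
    three_le_bd hcub hG.conn h1 h2
  obtain ⟨g, _, g2, g3⟩ := (Pk_lam (G := G) (univ : Finset V)).hasPaths
  refine ⟨lam G univ, ⟨g, g2, g3⟩, ?_⟩
  rw [Nat.card_eq_fintype_card]
  have h1 := lam_card (G := G) (univ : Finset V)
  rw [card_univ] at h1
  rcases density hcub hb with h | h
  · left; omega
  · exact Or.inr h

end Pool.Agent.H32.Den
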